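import Pool.Agent.Pcl.CvB

/-! Intersection with a form is compatible with rational equivalence. -/

set_option linter.unusedSectionVars false

open MvPolynomial

namespace Pool.Agent.Bloch.Pcl

open Pool.Agent.Bloch.Sep

variable {K : Type} [Field K] {σ : Type} [Finite σ] (𝕜 : Type) [Field 𝕜] [CharZero 𝕜]

theorem phi_single_of_mem {k d : ℕ} {g : MvPolynomial σ K} {T : PrimeSpectrum (MvPolynomial σ K)}
    (h : g ∈ T.asIdeal) : Phi 𝕜 k g d (Finsupp.single T 1) = (d : 𝕜) • Hs 𝕜 k T := by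
  unfold Phi
  rw [Finsupp.linearCombination_single, one_smul, if_pos h]

theorem phi_single_of_not {k d : ℕ} {g : MvPolynomial σ K}
    {T : PrimeSpectrum (MvPolynomial σ K)} (h : g ∉ T.asIdeal) :
    Phi 𝕜 k g d (Finsupp.single T 1) = divCyc K 𝕜 k T g := by
  unfold Phi
  rw [Finsupp.linearCombination_single, one_smul, if_neg h]

private theorem PhiR_lin {z : PrimeSpectrum (MvPolynomial σ K) →₀ 𝕜}
    {N : Submodule 𝕜 (PrimeSpectrum (MvPolynomial σ K) →₀ 𝕜)}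
    (L : (PrimeSpectrum (MvPolynomial σ K) →₀ 𝕜) →ₗ[𝕜] (PrimeSpectrum (MvPolynomial σ K) →₀ 𝕜))
    (h : ∀ T, z T ≠ 0 → L (Finsupp.single T 1) ∈ N) : L z ∈ N := by
  rw [← Finsupp.sum_single z, Finsupp.sum, map_sum]
  refine Submodule.sum_mem _ fun T hT => ?_
  have h1 : Finsupp.single T (z T) = z T • Finsupp.single T (1 : 𝕜) := by
    rw [Finsupp.smul_single, smul_eq_mul, mul_one]
  rw [h1, map_smul]
  exact N.smul_mem _ (h T (Finsupp.mem_support_iff.1 hT))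

private theorem PhiR_mono {k : ℕ} {Z Z' : Set (PrimeSpectrum (MvPolynomial σ K))} (h : Z ⊆ Z') :
    RH 𝕜 k Z ≤ RH 𝕜 k Z' := by
  unfold RH
  apply Submodule.span_mono
  rintro z ⟨W, hW, h2⟩
  exact ⟨W, h hW, h2⟩

/-- membership of `Phi z` in a submodule can be checked on the support of `z` -/
theorem phi_mem {k d : ℕ} {g : MvPolynomial σ K} {z : PrimeSpectrum (MvPolynomial σ K) →₀ 𝕜}
    {N : Submodule 𝕜 (PrimeSpectrum (MvPolynomial σ K) →₀ 𝕜)}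
    (h : ∀ T, z T ≠ 0 → Phi 𝕜 k g d (Finsupp.single T 1) ∈ N) : Phi 𝕜 k g d z ∈ N :=
  PhiR_lin 𝕜 _ h

/-- on a subvariety, `Phi` is the degree times the hyperplane section modulo rational equivalence
on that subvariety -/
theorem phi_sub_hs {k d : ℕ} {Z : Set (PrimeSpectrum (MvPolynomial σ K))} {g : MvPolynomial σ K}
    (hg : g.IsHomogeneous d) {T : PrimeSpectrum (MvPolynomial σ K)} (hTZ : T ∈ Z) (hT : HomP T)
    (hd : dl K T = k + 1) :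
    Phi 𝕜 k g d (Finsupp.single T 1) - (d : 𝕜) • Hs 𝕜 k T ∈ RH 𝕜 k Z := by
  by_cases h : g ∈ T.asIdeal
  · rw [phi_single_of_mem 𝕜 h, sub_self]
    exact Submodule.zero_mem _
  · rw [phi_single_of_not 𝕜 h]
    exact div_sub_hs 𝕜 hTZ hT hd hg h

private theorem PhiR_div {k n : ℕ} {W Q : PrimeSpectrum (MvPolynomial σ K)} (hW : HomP W)
    (hd : dl K W = k + 1) {f : MvPolynomial σ K} (hf : f.IsHomogeneous n) (hfW : f ∉ W.asIdeal)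
    (hQ : divCyc K 𝕜 k W f Q ≠ 0) : HomP Q ∧ W ≤ Q ∧ dl K Q = k ∧ f ∈ Q.asIdeal := by
  have h := (divCyc_ne_zero_iff K 𝕜 hd hfW Q).1 hQ
  exact ⟨homP_div 𝕜 hW hd hf hfW hQ, h.2.1, h.1, h.2.2⟩

/-- the support of the hyperplane section -/
theorem hs_supp {k : ℕ} {T q : PrimeSpectrum (MvPolynomial σ K)} (hT : HomP T)
    (hd : dl K T = k + 1) (h : Hs 𝕜 k T q ≠ 0) : HomP q ∧ T ≤ q ∧ dl K q = k := by
  obtain ⟨s, hs, h1⟩ := hs_eq 𝕜 hd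
  rw [h1] at h
  obtain ⟨h2, h3, h4, -⟩ := PhiR_div 𝕜 hT hd (isHomogeneous_X K s) hs h
  exact ⟨h2, h3, h4⟩

/-- the support of `Phi`: for `g ∉ T` moreover `g ∈ q` -/
theorem phi_supp {k d : ℕ} {g : MvPolynomial σ K} (hg : g.IsHomogeneous d)
    {T q : PrimeSpectrum (MvPolynomial σ K)} (hT : HomP T) (hd : dl K T = k + 1)
    (h : Phi 𝕜 k g d (Finsupp.single T 1) q ≠ 0) :
    HomP q ∧ T ≤ q ∧ dl K q = k ∧ g ∈ q.asIdeal := by
  by_cases h1 : g ∈ T.asIdeal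
  · rw [phi_single_of_mem 𝕜 h1, Finsupp.smul_apply, smul_eq_mul] at h
    obtain ⟨h2, h3, h4⟩ := hs_supp 𝕜 hT hd (right_ne_zero_of_mul h)
    exact ⟨h2, h3, h4, h3 h1⟩
  · rw [phi_single_of_not 𝕜 h1] at h
    exact PhiR_div 𝕜 hT hd hg h1 h

/-- cycles in `RH` are supported on `Z` -/
theorem rh_supp {k : ℕ} {Z : Set (PrimeSpectrum (MvPolynomial σ K))}
    (hZ : ∀ p ∈ Z, ∀ q, p ≤ q → q ∈ Z) {z : PrimeSpectrum (MvPolynomial σ K) →₀ 𝕜}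
    (hz : z ∈ RH 𝕜 k Z) : Sup 𝕜 z Z k := by
  unfold RH at hz
  induction hz using Submodule.span_induction with
  | mem z hz =>
    obtain ⟨W, hWZ, hW, hd, n, f, g, hf, hg, hfW, hgW, rfl⟩ := hz
    intro q hq
    by_cases h1 : divCyc K 𝕜 k W f q = 0
    · rw [Finsupp.sub_apply, h1, zero_sub, neg_ne_zero] at hq
      obtain ⟨h2, h3, h4, -⟩ := PhiR_div 𝕜 hW hd hg hgW hq
      exact ⟨h2, hZ W hWZ q h3, h4⟩
    · obtain ⟨h2, h3, h4, -⟩ := PhiR_div 𝕜 hW hd hf hfW h1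
      exact ⟨h2, hZ W hWZ q h3, h4⟩
  | zero =>
    intro q hq
    exact absurd Finsupp.zero_apply hq
  | add x y _ _ hx hy =>
    intro q hq
    by_cases h1 : x q = 0
    · rw [Finsupp.add_apply, h1, zero_add] at hq
      exact hy q hq
    · exact hx q h1
  | smul c x _ hx =>
    intro q hq
    rw [Finsupp.smul_apply, smul_eq_mul] at hq
    exact hx q (right_ne_zero_of_mul hq)

/-- the case `g ∉ W` -/
private theorem PhiR_not {k d n : ℕ} {W : PrimeSpectrum (MvPolynomial σ K)} (hW : HomP W)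
    (hd : dl K W = k + 2) {g : MvPolynomial σ K} (hg : g.IsHomogeneous d) (hgW : g ∉ W.asIdeal)
    {f₁ f₂ : MvPolynomial σ K} (hf₁ : f₁.IsHomogeneous n) (hf₂ : f₂.IsHomogeneous n)
    (hf₁W : f₁ ∉ W.asIdeal) (hf₂W : f₂ ∉ W.asIdeal) :
    Phi 𝕜 k g d (divCyc K 𝕜 (k + 1) W f₁ - divCyc K 𝕜 (k + 1) W f₂) ∈
      RH 𝕜 k {T | W ≤ T ∧ g ∈ T.asIdeal} := by
  have h1 : Phi 𝕜 k g d (divCyc K 𝕜 (k + 1) W f₁) - Phi 𝕜 k f₁ n (divCyc K 𝕜 (k + 1) W g) ∈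
      RH 𝕜 k {T | W ≤ T ∧ g ∈ T.asIdeal} :=
    PhiR_mono 𝕜 (Z := XX W f₁ g) (Z' := {T | W ≤ T ∧ g ∈ T.asIdeal})
      (fun T hT => ⟨hT.1, hT.2.2⟩) (KI 𝕜 hW hd hf₁ hg hf₁W hgW)
  have h2 : Phi 𝕜 k g d (divCyc K 𝕜 (k + 1) W f₂) - Phi 𝕜 k f₂ n (divCyc K 𝕜 (k + 1) W g) ∈
      RH 𝕜 k {T | W ≤ T ∧ g ∈ T.asIdeal} :=
    PhiR_mono 𝕜 (Z := XX W f₂ g) (Z' := {T | W ≤ T ∧ g ∈ T.asIdeal})
      (fun T hT => ⟨hT.1, hT.2.2⟩) (KI 𝕜 hW hd hf₂ hg hf₂W hgW)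
  have h3 : (Phi 𝕜 k f₁ n - Phi 𝕜 k f₂ n) (divCyc K 𝕜 (k + 1) W g) ∈
      RH 𝕜 k {T | W ≤ T ∧ g ∈ T.asIdeal} := by
    refine PhiR_lin 𝕜 _ fun T hT => ?_
    obtain ⟨h4, h5, h6, h7⟩ := PhiR_div 𝕜 hW hd hg hgW hT
    have hTm : T ∈ {T | W ≤ T ∧ g ∈ T.asIdeal} := ⟨h5, h7⟩
    have h8 := Submodule.sub_mem _ (phi_sub_hs 𝕜 hf₁ hTm h4 h6) (phi_sub_hs 𝕜 hf₂ hTm h4 h6)
    rw [sub_sub_sub_cancel_right] at h8
    rw [LinearMap.sub_apply]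
    exact h8
  rw [LinearMap.sub_apply] at h3
  have h4 := Submodule.add_mem _ (Submodule.sub_mem _ h1 h2) h3
  rw [map_sub]
  convert h4 using 1
  abel

/-- `Phi g` maps `RH (k + 1) Z` to `RH k (Z ∩ {g = 0})`. For a generator
`divCyc W f₁ - divCyc W f₂`, `W ∈ Z`, `f₁, f₂` of degree `n`: if `g ∉ W` use `KI` twice; the terms
`Phi f₁ n T - Phi f₂ n T` for `T` in the support of `divCyc W g` are in `RH k {T}` by `phi_sub_hs`.
If `g ∈ W` then `Phi g d T = d Hs T` for all `T ≥ W`; use the first case for a variable `X s ∉ W`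
instead of `g`, and `phi_sub_hs` for `X s`. -/
theorem phi_RH {k d : ℕ} {Z : Set (PrimeSpectrum (MvPolynomial σ K))}
    (hZ : ∀ p ∈ Z, ∀ q, p ≤ q → q ∈ Z) {g : MvPolynomial σ K} (hg : g.IsHomogeneous d)
    {z : PrimeSpectrum (MvPolynomial σ K) →₀ 𝕜} (hz : z ∈ RH 𝕜 (k + 1) Z) :
    Phi 𝕜 k g d z ∈ RH 𝕜 k {T | T ∈ Z ∧ g ∈ T.asIdeal} := by
  unfold RH at hz
  induction hz using Submodule.span_induction with
  | mem z hz =>
    obtain ⟨W, hWZ, hW, hd, n, f₁, f₂, hf₁, hf₂, hf₁W, hf₂W, rfl⟩ := hz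
    have hd' : dl K W = k + 2 := hd
    by_cases hgW : g ∈ W.asIdeal
    · obtain ⟨s, hs⟩ := exists_X (k := k + 1) hd
      have h1 := PhiR_not 𝕜 hW hd' (isHomogeneous_X K s) hs hf₁ hf₂ hf₁W hf₂W
      have h2 : Phi 𝕜 k (X s) 1 (divCyc K 𝕜 (k + 1) W f₁ - divCyc K 𝕜 (k + 1) W f₂) ∈
          RH 𝕜 k {T | T ∈ Z ∧ g ∈ T.asIdeal} :=
        PhiR_mono 𝕜 (Z := {T | W ≤ T ∧ (X s : MvPolynomial σ K) ∈ T.asIdeal})
          (Z' := {T | T ∈ Z ∧ g ∈ T.asIdeal}) (fun T hT => ⟨hZ W hWZ T hT.1, hT.1 hgW⟩) h1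
      have h3 : (Phi 𝕜 k g d - (d : 𝕜) • Phi 𝕜 k (X s) 1 :
          (PrimeSpectrum (MvPolynomial σ K) →₀ 𝕜) →ₗ[𝕜] (PrimeSpectrum (MvPolynomial σ K) →₀ 𝕜))
          (divCyc K 𝕜 (k + 1) W f₁ - divCyc K 𝕜 (k + 1) W f₂) ∈
          RH 𝕜 k {T | T ∈ Z ∧ g ∈ T.asIdeal} := by
        refine PhiR_lin 𝕜 _ fun T hT => ?_
        have h4 : HomP T ∧ W ≤ T ∧ dl K T = k + 1 := by
          by_cases h5 : divCyc K 𝕜 (k + 1) W f₁ T = 0
          · rw [Finsupp.sub_apply, h5, zero_sub, neg_ne_zero] at hT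
            obtain ⟨h6, h7, h8, -⟩ := PhiR_div 𝕜 hW hd hf₂ hf₂W hT
            exact ⟨h6, h7, h8⟩
          · obtain ⟨h6, h7, h8, -⟩ := PhiR_div 𝕜 hW hd hf₁ hf₁W h5
            exact ⟨h6, h7, h8⟩
        have hTm : T ∈ {T | T ∈ Z ∧ g ∈ T.asIdeal} := ⟨hZ W hWZ T h4.2.1, h4.2.1 hgW⟩
        have h9 := phi_sub_hs 𝕜 (isHomogeneous_X K s) hTm h4.1 h4.2.2
        have h10 := Submodule.smul_mem _ (-(d : 𝕜)) h9
        rw [LinearMap.sub_apply, LinearMap.smul_apply, phi_single_of_mem 𝕜 (h4.2.1 hgW)]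
        convert h10 using 1
        rw [Nat.cast_one, one_smul, neg_smul, smul_sub, neg_sub]
      rw [LinearMap.sub_apply, LinearMap.smul_apply] at h3
      have h4 := Submodule.add_mem _ h3 (Submodule.smul_mem _ (d : 𝕜) h2)
      rwa [sub_add_cancel] at h4
    · exact PhiR_mono 𝕜 (Z := {T | W ≤ T ∧ g ∈ T.asIdeal})
        (Z' := {T | T ∈ Z ∧ g ∈ T.asIdeal}) (fun T hT => ⟨hZ W hWZ T hT.1, hT.2⟩)
        (PhiR_not 𝕜 hW hd' hg hgW hf₁ hf₂ hf₁W hf₂W)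
  | zero => rw [map_zero]; exact Submodule.zero_mem _
  | add x y _ _ hx hy => rw [map_add]; exact Submodule.add_mem _ hx hy
  | smul c x _ hx => rw [map_smul]; exact Submodule.smul_mem _ _ hx

end Pool.Agent.Bloch.Pcl
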