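import Pool.Agent.Pcl.ExtA
import Pool.Agent.Pcl.PhiR

/-! Extension of the base field: divisors. -/

set_option linter.unusedSectionVars false

open MvPolynomial

namespace Pool.Agent.Bloch.Pcl

open Pool.Agent.Bloch.Sep

attribute [local instance] MvPolynomial.algebraMvPolynomial

variable {K : Type} [Field K] {σ : Type} [Finite σ] (𝕜 : Type) [Field 𝕜] [CharZero 𝕜]

/-- `ex` is the flat pull-back (`pull_single`, `cyc_quot_self`, `dl_fn`, `dl_eT`) -/
theorem ex_eq_pull (z : PrimeSpectrum (MvPolynomial σ K) →₀ 𝕜) :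
    pull K 𝕜 (MvPolynomial σ (Fn K)) 1 z = ex 𝕜 z := by
  induction z using Finsupp.induction_linear with
  | zero => rw [map_zero, map_zero]
  | add x y hx hy => rw [map_add, map_add, hx, hy]
  | single p c =>
    rw [pull_single, ex_single, ← eT_asIdeal,
      cyc_quot_self K 𝕜 (eT p) (by rw [dl_fn, dl_eT]), Finsupp.smul_single, smul_eq_mul, mul_one]

theorem extB_dl (P : PrimeSpectrum (MvPolynomial σ (Fn K))) :
    dl K P ≤ dl K (ct K (A := MvPolynomial σ K) P) + 1 := by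
  have h1 : eT (ct K (A := MvPolynomial σ K) P) ≤ P := (eT_le_iff _ _).2 le_rfl
  have h2 := dl_le (Fn K) h1
  rw [dl_eT] at h2
  rw [dl_fn]
  omega

/-- extension of a divisor: `pull_divCyc_eq` with `ρ = 1` (or `pull_divCyc_exact`) and
`divCyc_tower K (Fn K)`, `td_Fn` -/
theorem ex_div {k : ℕ} {T : PrimeSpectrum (MvPolynomial σ K)} (hd : dl K T = k + 1)
    {a : MvPolynomial σ K} (ha : a ∉ T.asIdeal) :
    ex 𝕜 (divCyc K 𝕜 k T a) = divCyc (Fn K) 𝕜 k (eT T) (bc a) := by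
  rw [← ex_eq_pull, pull_divCyc_exact K 𝕜 (MvPolynomial σ (Fn K)) extB_dl T hd a ha, ex_eq_pull,
    ex_single, dcyc_single, one_smul, divCyc_tower K (Fn K) 𝕜 k, td_Fn, add_comm k 1]

/-- the set of subvarieties over the function field -/
def ZF (E : Set (MvPolynomial σ K)) : Set (PrimeSpectrum (MvPolynomial σ (Fn K))) :=
  Zs (bc '' E)

theorem mem_ZF (E : Set (MvPolynomial σ K)) (Q : PrimeSpectrum (MvPolynomial σ (Fn K))) :
    Q ∈ ZF E ↔ ct K (A := MvPolynomial σ K) Q ∈ Zs E := by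
  constructor
  · intro h f hf
    exact h _ ⟨f, hf, rfl⟩
  · rintro h _ ⟨f, hf, rfl⟩
    exact h f hf

theorem eT_mem_ZF (E : Set (MvPolynomial σ K)) (T : PrimeSpectrum (MvPolynomial σ K)) :
    eT T ∈ ZF E ↔ T ∈ Zs E := by
  rw [mem_ZF, ct_eT]

theorem zs_up (E : Set (MvPolynomial σ K)) : ∀ p ∈ Zs E, ∀ q, p ≤ q → q ∈ Zs E :=
  fun _ hp _ hpq f hf => hpq (hp f hf)

/-- extension of hyperplane sections and of `Phi`, for cycles in a given closed set; on the
subvarieties of `Z` on which `g` does not vanish the equality is exact -/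
theorem ex_hs {k : ℕ} {E : Set (MvPolynomial σ K)} {T : PrimeSpectrum (MvPolynomial σ K)}
    (hT : HomP T) (hTE : T ∈ Zs E) (hd : dl K T = k + 1) :
    ex 𝕜 (Hs 𝕜 k T) - Hs 𝕜 k (eT T) ∈ RH 𝕜 k (ZF E) := by
  obtain ⟨s, hs, h1⟩ := hs_eq 𝕜 hd
  have hd' : dl (Fn K) (eT T) = k + 1 := by rw [dl_eT, hd]
  obtain ⟨s', hs', h2⟩ := hs_eq 𝕜 hd'
  have h3 : bc (X s : MvPolynomial σ K) = X s := by
    change algebraMap (MvPolynomial σ K) (MvPolynomial σ (Fn K)) (X s) = X s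
    rw [algebraMap_def, map_X]
  rw [h1, h2, ex_div 𝕜 hd hs, h3]
  exact mem_RH 𝕜 ((eT_mem_ZF E T).2 hTE) (homP_eT hT) hd' (isHomogeneous_X _ s)
    (isHomogeneous_X _ s') (fun h => hs ((bc_mem_eT T _).1 (by rw [h3]; exact h))) hs'

end Pool.Agent.Bloch.Pcl
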