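import Pool.Agent.Pcl.Sub

/-! Horizontal subvarieties. -/

set_option linter.unusedSectionVars false

open MvPolynomial

namespace Pool.Agent.Bloch.Pcl

open Pool.Agent.Bloch.Sep

attribute [local instance] MvPolynomial.algebraMvPolynomial

variable {K : Type} [Field K] {σ : Type} [Finite σ] (𝕜 : Type) [Field 𝕜] [CharZero 𝕜]

/-- An element of a field extension of an algebraically closed field which is not in the image is
transcendental, so for the fraction field `M` of `R / T` and `t = - F / G`: no nonzero `c ∈ K[μ]` has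
`c(t) = 0`. -/
theorem hor_transc [IsAlgClosed K] {M : Type} [Field M] [Algebra K M] (t : M)
    (h : ∀ l : K, t ≠ algebraMap K M l) (c : Polynomial K) (hc : c ≠ 0) :
    Polynomial.aeval t c ≠ 0 := by
  intro h0
  have halg : IsAlgebraic K t := ⟨c, hc, h0⟩
  have hint : IsIntegral K t := halg.isIntegral
  have hirr := minpoly.irreducible hint
  have hdeg := IsAlgClosed.degree_eq_one_of_irreducible K hirr
  obtain ⟨l, hl⟩ := minpoly.mem_range_of_degree_eq_one K t hdeg
  exact h l hl.symm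


/-- The graph of `- F / G` over `T`. Let `M = FractionRing (R / T)`, `t = - F / G`, `𝒬` the kernel
of `Polynomial R → M`, `X ↦ t`, a prime with `ctr polyC 𝒬 = T`, `C F + X C G ∈ 𝒬`, so
`𝒬 ≠ ext T` (`G ∉ T`) and `dl K 𝒬 = dl K T` (`dl_eq_ctr_of_ne`). No element of `SC` is in `𝒬`
(`hor_transc`), so `exists_uset` (with `th_frac`) gives `Q` with `ctr Th Q = 𝒬`; `dl_uset`,
`dl_fn`. -/
theorem exists_graph [IsAlgClosed K] {k : ℕ} {F G : MvPolynomial σ K}
    {T : PrimeSpectrum (MvPolynomial σ K)} (hd : dl K T = k + 1) (hGT : G ∉ T.asIdeal)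
    (hl : ∀ l : K, F + C l * G ∉ T.asIdeal) :
    ∃ Q : PrimeSpectrum (MvPolynomial σ (Fn K)), ct K (A := MvPolynomial σ K) Q = T ∧
      gm F G ∈ Q.asIdeal ∧ bc G ∉ Q.asIdeal ∧ dl (Fn K) Q = k := by
  classical
  have := T.2
  let M : Type := FractionRing (MvPolynomial σ K ⧸ T.asIdeal)
  let ι : MvPolynomial σ K →ₐ[K] M := IsScalarTower.toAlgHom K (MvPolynomial σ K) M
  have hι : ∀ f : MvPolynomial σ K, ι f = 0 ↔ f ∈ T.asIdeal := by
    intro f
    change algebraMap (MvPolynomial σ K ⧸ T.asIdeal) M (Ideal.Quotient.mk T.asIdeal f) = 0 ↔ _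
    rw [FaithfulSMul.algebraMap_eq_zero_iff, Ideal.Quotient.eq_zero_iff_mem]
  have hG0 : ι G ≠ 0 := fun h => hGT ((hι G).1 h)
  let t : M := - ι F / ι G
  have ht : ι F + t * ι G = 0 := by
    have h1 : t * ι G = - ι F := div_mul_cancel₀ _ hG0
    rw [h1, add_neg_cancel]
  let φ : Polynomial (MvPolynomial σ K) →ₐ[K] M :=
    (Polynomial.aeval (R := MvPolynomial σ K) t).restrictScalars K
  have hφC : ∀ f : MvPolynomial σ K, φ (Polynomial.C f) = ι f := by
    intro f
    change Polynomial.aeval t (Polynomial.C f) = _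
    rw [Polynomial.aeval_C]
    rfl
  have hφX : φ Polynomial.X = t := by
    change Polynomial.aeval t Polynomial.X = _
    rw [Polynomial.aeval_X]
  let P : PrimeSpectrum (Polynomial (MvPolynomial σ K)) :=
    ⟨RingHom.ker (φ : Polynomial (MvPolynomial σ K) →+* M), RingHom.ker_isPrime _⟩
  have hP : ∀ q : Polynomial (MvPolynomial σ K), q ∈ P.asIdeal ↔ φ q = 0 := fun q => Iff.rfl
  have hctr : ctr K (polyC K (MvPolynomial σ K)) P = T := by
    apply PrimeSpectrum.ext
    ext f
    rw [mem_ctr, polyC_apply, hP, hφC, hι]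
  have hgP : Polynomial.C F + Polynomial.X * Polynomial.C G ∈ P.asIdeal := by
    rw [hP, map_add, map_mul, hφC, hφC, hφX, ht]
  have hne : P ≠ ext (ctr K (polyC K (MvPolynomial σ K)) P) := by
    rw [hctr]
    intro h
    rw [h, mem_ext] at hgP
    have := hgP 1
    rw [Polynomial.coeff_add, Polynomial.coeff_C, if_neg one_ne_zero, zero_add,
      Polynomial.coeff_mul_C, Polynomial.coeff_X_one, one_mul] at this
    exact hGT this
  have hdP : dl K P = k + 1 := by
    rw [dl_eq_ctr_of_ne K P hne, hctr, hd]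
  have htr : ∀ l : K, t ≠ algebraMap K M l := by
    intro l h1
    apply hl (-(-l))
    rw [← hι, map_add, map_mul]
    have h2 : ι (C (-(-l))) = algebraMap K M l := by
      rw [neg_neg]
      exact ι.commutes l
    rw [h2, ← h1, ht]
  have hφc : ∀ c : Polynomial K, φ (cC σ c) = Polynomial.aeval t c := by
    intro c
    induction c using Polynomial.induction_on' with
    | add p q hp hq =>
      rw [map_add, ← hp, ← hq, ← map_add]
      congr 1
      unfold cC
      rw [Polynomial.map_add]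
    | monomial n a =>
      unfold cC
      rw [Polynomial.map_monomial, ← Polynomial.C_mul_X_pow_eq_monomial, map_mul, map_pow, hφC,
        hφX, Polynomial.aeval_monomial]
      have h1 : ι (C a) = algebraMap K M a := ι.commutes a
      rw [h1]
  obtain ⟨Q, hQU, hQ⟩ := exists_uset (th_frac (K := K) (σ := σ)) P
    (fun x hx => by
      have : x = 0 := th_inj (by rw [hx, map_zero])
      rw [this]
      exact Ideal.zero_mem _)
    (by
      rintro u ⟨c, hc, rfl⟩
      intro h
      have h1 : φ (cC σ c) = 0 := h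
      rw [hφc] at h1
      exact hor_transc t htr c (nonZeroDivisors.ne_zero hc) h1)
  have hmem : ∀ q : Polynomial (MvPolynomial σ K), Th K σ q ∈ Q.asIdeal ↔ φ q = 0 := by
    intro q
    rw [← hP, ← hQ, mem_ctr]
  have hct : ct K (A := MvPolynomial σ K) Q = T := by
    apply PrimeSpectrum.ext
    ext f
    change bc f ∈ Q.asIdeal ↔ _
    rw [← th_C, hmem, hφC, hι]
  refine ⟨Q, hct, ?_, ?_, ?_⟩
  · have e : gm F G = Th K σ (Polynomial.C F + Polynomial.X * Polynomial.C G) := by
      rw [map_add, map_mul, th_C, th_C, th_X]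
      first | done | rfl
    rw [e, hmem]
    exact hgP
  · intro h
    apply hGT
    rw [← hct]
    exact h
  · have h1 := dl_uset (th_frac (K := K) (σ := σ)) hQU
    rw [hQ, hdP, dl_fn] at h1
    omega


/-- The coefficient of a horizontal subvariety. Let `Q` be the prime of `exists_graph` for `T`.
The value at `Q` of `Phi (gm F G) (single (eT T') 1)` for a homogeneous `T'` of dimension `k + 1`
is nonzero only if `eT T' ≤ Q` (`phi_supp`), i.e. `T' ≤ ct Q = T` (`eT_le_iff`), i.e. `T' = T`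
(`eq_of_le_of_dl`); for `T' = T` it is the value of `divCyc (eT T) (gm F G)` at `Q`, not zero
(`gm_mem_eT`, `divCyc_ne_zero_iff`). -/
theorem hor_coeff [IsAlgClosed K] {k d : ℕ} {F G : MvPolynomial σ K} (hF : F.IsHomogeneous d)
    (hG : G.IsHomogeneous d) {S : PrimeSpectrum (MvPolynomial σ K) →₀ 𝕜}
    (hS : ∀ T, S T ≠ 0 → HomP T ∧ dl K T = k + 1)
    (h0 : ∀ Q : PrimeSpectrum (MvPolynomial σ (Fn K)), bc G ∉ Q.asIdeal →
      Phi 𝕜 k (gm F G) d (ex 𝕜 S) Q = 0)
    {T : PrimeSpectrum (MvPolynomial σ K)} (hT : S T ≠ 0) (hGT : G ∉ T.asIdeal) :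
    ∃ l : K, F + C l * G ∈ T.asIdeal := by
  classical
  by_contra hcon
  push Not at hcon
  obtain ⟨hTh, hTd⟩ := hS T hT
  obtain ⟨Q, hct, hgQ, hGQ, hdQ⟩ := exists_graph hTd hGT hcon
  have hz := h0 Q hGQ
  have key : ∀ z : PrimeSpectrum (MvPolynomial σ K) →₀ 𝕜, (∀ T', z T' ≠ 0 → HomP T' ∧ dl K T' = k + 1)
      → Phi 𝕜 k (gm F G) d (ex 𝕜 z) Q =
        z T * Phi 𝕜 k (gm F G) d (Finsupp.single (eT T) 1) Q := by
    intro z hz'
    conv_lhs => rw [← Finsupp.sum_single z, Finsupp.sum, map_sum, map_sum, Finsupp.finsetSum_apply]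
    have hterm : ∀ T' : PrimeSpectrum (MvPolynomial σ K),
        Phi 𝕜 k (gm F G) d (ex 𝕜 (Finsupp.single T' (z T'))) Q =
          z T' * Phi 𝕜 k (gm F G) d (Finsupp.single (eT T') 1) Q := by
      intro T'
      have e1 : Finsupp.single (eT T') (z T') = z T' • Finsupp.single (eT T') (1 : 𝕜) := by
        rw [Finsupp.smul_single, smul_eq_mul, mul_one]
      rw [ex_single, e1, map_smul, Finsupp.smul_apply, smul_eq_mul]
    rw [Finset.sum_congr rfl (fun T' _ => hterm T')]
    apply Finset.sum_eq_single T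
    · intro T' hT' hne
      rw [Finsupp.mem_support_iff] at hT'
      obtain ⟨h1, h2⟩ := hz' T' hT'
      by_contra h3
      have h4 : Phi 𝕜 k (gm F G) d (Finsupp.single (eT T') 1) Q ≠ 0 := fun h5 => h3 (by
        rw [h5, mul_zero])
      obtain ⟨-, h6, -, -⟩ := phi_supp 𝕜 (gm_homog hF hG) (homP_eT h1) (by rw [dl_eT, h2]) h4
      rw [eT_le_iff, hct] at h6
      exact hne (eq_of_le_of_dl K h6 (by rw [h2, hTd]))
    · intro h1
      rw [Finsupp.notMem_support_iff] at h1
      rw [h1, zero_mul]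
  rw [key S hS] at hz
  rcases mul_eq_zero.1 hz with h1 | h1
  · exact hT h1
  · have hn : gm F G ∉ (eT T).asIdeal := fun h2 => hGT ((gm_mem_eT F G T).1 h2).2
    rw [phi_single_of_not 𝕜 hn] at h1
    have hE : dl (Fn K) (eT T) = k + 1 := by rw [dl_eT, hTd]
    exact ((divCyc_ne_zero_iff (Fn K) 𝕜 hE hn Q).2
      ⟨hdQ, (eT_le_iff T Q).2 (le_of_eq hct.symm), hgQ⟩) h1


end Pool.Agent.Bloch.Pcl
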