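import Pool.Agent.Pcl.LiftA

/-! Lifting of divisors on the general member of the pencil. -/

set_option linter.unusedSectionVars false

open MvPolynomial

namespace Pool.Agent.Bloch.Pcl

open Pool.Agent.Bloch.Sep

attribute [local instance] MvPolynomial.algebraMvPolynomial

variable {K : Type} [Field K] {σ : Type} [Finite σ] (𝕜 : Type) [Field 𝕜] [CharZero 𝕜]
variable {F G : MvPolynomial σ K} {W : PrimeSpectrum (MvPolynomial σ (Fn K))}

/-- `RH` is generated by the homogeneous members of dimension `k + 1` only -/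
theorem RH_le {L : Type} [Field L] {k : ℕ} {Z Z' : Set (PrimeSpectrum (MvPolynomial σ L))}
    (h : ∀ T ∈ Z, HomP T → dl L T = k + 1 → T ∈ Z') : RH 𝕜 k Z ≤ RH 𝕜 k Z' := by
  refine Submodule.span_mono ?_
  rintro z ⟨W, hWZ, hW, hd, n, f, g, hf, hg, hfW, hgW, rfl⟩
  exact ⟨W, h W hWZ hW hd, hW, hd, n, f, g, hf, hg, hfW, hgW, rfl⟩

/-- One divisor. Let `V = ct W`, `P` a form of degree `m`, `P ∉ V`. By `KI` over `Fn K` for `eT V`,
`bc P` and `gm F G`: `Phi (gm F G) (div_{eT V} (bc P)) - Phi (bc P) (div_{eT V} (gm F G))` is in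
`RH k (XX (eT V) (bc P) (gm F G))`, and the homogeneous members of dimension `k + 1` of this set
contain `G` (`le_of_graph` and `bc P ∉ W`), so they are in `ZF (E ∪ {F, G})` (`mem_ZF`). Then
`div_graph`, `ex_div`, `phi_single_of_not`, and `phi_sub_hs` for the components of `D`:
`Phi (bc P) D = m • (∑ D_Q Hs Q)` modulo `RH`. -/
theorem lift_div {k d m : ℕ} {E : Set (MvPolynomial σ K)} (hF : F.IsHomogeneous d)
    (hG : G.IsHomogeneous d) (hW : HomP W) (hWE : W ∈ ZF E)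
    (hd : dl (Fn K) W = k + 1) (hgW : gm F G ∈ W.asIdeal) (hGW : bc G ∉ W.asIdeal) :
    ∃ H : PrimeSpectrum (MvPolynomial σ (Fn K)) →₀ 𝕜,
      ∀ P : MvPolynomial σ K, P.IsHomogeneous m → P ∉ (ct K (A := MvPolynomial σ K) W).asIdeal →
        Phi 𝕜 k (gm F G) d
          (ex 𝕜 (divCyc K 𝕜 (k + 1) (ct K (A := MvPolynomial σ K) W) P)) -
          (divCyc (Fn K) 𝕜 k W (bc P) + (m : 𝕜) • H) ∈ RH 𝕜 k (ZF (E ∪ {F, G})) := by
  classical
  have hmemV : ∀ P : MvPolynomial σ K, P ∈ (ct K (A := MvPolynomial σ K) W).asIdeal ↔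
      bc P ∈ W.asIdeal := fun P => Iff.rfl
  have hdV : dl K (ct K (A := MvPolynomial σ K) W) = k + 2 := by
    rw [dl_graph hgW hGW, hd]
  have hVh : HomP (ct K (A := MvPolynomial σ K) W) := homP_ct hW
  have hdE : dl (Fn K) (eT (ct K (A := MvPolynomial σ K) W)) = k + 2 := by rw [dl_eT, hdV]
  have hEh : HomP (eT (ct K (A := MvPolynomial σ K) W)) := homP_eT hVh
  have hgE := g_not_mem (F := F) hGW
  have hEZ : eT (ct K (A := MvPolynomial σ K) W) ∈ ZF E := by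
    rw [eT_mem_ZF, ← mem_ZF]
    exact hWE
  have hup : ∀ T : PrimeSpectrum (MvPolynomial σ (Fn K)),
      eT (ct K (A := MvPolynomial σ K) W) ≤ T → bc F ∈ T.asIdeal → bc G ∈ T.asIdeal →
      T ∈ ZF (E ∪ {F, G}) := by
    intro T hT hFT hGT
    have h1 : T ∈ ZF E := fun r hr => hT (hEZ r hr)
    rintro f ⟨e, he, rfl⟩
    rcases he with he | he
    · exact h1 _ ⟨e, he, rfl⟩
    · rcases he with rfl | he
      · exact hFT
      · rw [Set.mem_singleton_iff] at he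
        rw [he]
        exact hGT
  obtain ⟨D, hD, hD2⟩ := div_graph 𝕜 hF hG hW hd hgW hGW
  refine ⟨Finsupp.linearCombination 𝕜
    (fun Q : PrimeSpectrum (MvPolynomial σ (Fn K)) => Hs 𝕜 k Q) D, ?_⟩
  intro P hP hPV
  have hPW : bc P ∉ W.asIdeal := hPV
  have hPE : bc P ∉ (eT (ct K (A := MvPolynomial σ K) W)).asIdeal := by
    rw [bc_mem_eT]
    exact hPV
  have hKI := KI 𝕜 (k := k) hEh hdE (bc_homog hP) (gm_homog hF hG) hPE hgE
  have hKI2 := RH_le 𝕜 (k := k) (Z := XX (eT (ct K (A := MvPolynomial σ K) W)) (bc P) (gm F G))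
    (Z' := ZF (E ∪ {F, G})) (by
      rintro T ⟨hT1, hT2, hT3⟩ hTh hTd
      have hGT : bc G ∈ T.asIdeal := by
        by_contra hGT
        have h1 := le_of_graph hgW T hT1 hT3 hGT
        have h2 := eq_of_le_of_dl (Fn K) h1 (by rw [hd, hTd])
        rw [h2] at hPW
        exact hPW hT2
      exact hup T hT1 (gm_mem_G hT3 hGT) hGT) hKI
  rw [hD, map_add, phi_single_of_not 𝕜 hPW] at hKI2
  rw [ex_div 𝕜 hdV hPV]
  have h3 : Phi 𝕜 k (bc P) m D - (m : 𝕜) • Finsupp.linearCombination 𝕜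
      (fun Q : PrimeSpectrum (MvPolynomial σ (Fn K)) => Hs 𝕜 k Q) D ∈
      RH 𝕜 k (ZF (E ∪ {F, G})) := by
    have h4 : Phi 𝕜 k (bc P) m D - (m : 𝕜) • Finsupp.linearCombination 𝕜
        (fun Q : PrimeSpectrum (MvPolynomial σ (Fn K)) => Hs 𝕜 k Q) D =
        D.sum fun Q c => c • (Phi 𝕜 k (bc P) m (Finsupp.single Q 1) - (m : 𝕜) • Hs 𝕜 k Q) := by
      conv_lhs => rw [← Finsupp.sum_single D]
      rw [Finsupp.sum, map_sum, map_sum, Finset.smul_sum, ← Finset.sum_sub_distrib, Finsupp.sum]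
      refine Finset.sum_congr rfl fun Q _ => ?_
      rw [Finsupp.linearCombination_single, smul_sub, smul_comm (D Q) (m : 𝕜), ← map_smul,
        Finsupp.smul_single, smul_eq_mul, mul_one]
    rw [h4]
    refine Submodule.sum_mem _ fun Q hQ => Submodule.smul_mem _ _ ?_
    obtain ⟨hQh, hQd, hQV, hQF, hQG⟩ := hD2 Q (Finsupp.mem_support_iff.1 hQ)
    exact phi_sub_hs 𝕜 (bc_homog hP) (hup Q hQV hQF hQG) hQh hQd
  have h5 := Submodule.add_mem _ hKI2 h3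
  have h6 : Phi 𝕜 k (gm F G) d
        (divCyc (Fn K) 𝕜 (k + 1) (eT (ct K (A := MvPolynomial σ K) W)) (bc P)) -
      (divCyc (Fn K) 𝕜 k W (bc P) + Phi 𝕜 k (bc P) m D) +
      (Phi 𝕜 k (bc P) m D - (m : 𝕜) • Finsupp.linearCombination 𝕜
        (fun Q : PrimeSpectrum (MvPolynomial σ (Fn K)) => Hs 𝕜 k Q) D) =
      Phi 𝕜 k (gm F G) d
        (divCyc (Fn K) 𝕜 (k + 1) (eT (ct K (A := MvPolynomial σ K) W)) (bc P)) -
      (divCyc (Fn K) 𝕜 k W (bc P) + (m : 𝕜) • Finsupp.linearCombination 𝕜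
        (fun Q : PrimeSpectrum (MvPolynomial σ (Fn K)) => Hs 𝕜 k Q) D) := by
    abel
  rw [h6] at h5
  exact h5

/-- Lifting of a relation. `sub_hom` for `p` and `q` with the same `N`: forms `P, Q` of the same
degree `n + N d`, `bc P ≡ C c * G ^ N * p` modulo `gm F G ∈ W`, so `P ∉ ct W` and
`div_W (bc P) = N • div_W (bc G) + div_W p` (`divCyc_congr`, `divCyc_mul`, `divCyc_pow`,
`divCyc_one`), the same for `q`; `lift_div` for `P` and `Q`. -/
theorem lift_rel {k d n : ℕ} {E : Set (MvPolynomial σ K)} (hF : F.IsHomogeneous d)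
    (hG : G.IsHomogeneous d) (hW : HomP W) (hWE : W ∈ ZF E)
    (hd : dl (Fn K) W = k + 1) (hgW : gm F G ∈ W.asIdeal) (hGW : bc G ∉ W.asIdeal)
    {p q : MvPolynomial σ (Fn K)} (hp : p.IsHomogeneous n) (hq : q.IsHomogeneous n)
    (hpW : p ∉ W.asIdeal) (hqW : q ∉ W.asIdeal) :
    ∃ S ∈ RH 𝕜 (k + 1) (Zs E),
      (divCyc (Fn K) 𝕜 k W p - divCyc (Fn K) 𝕜 k W q) - Phi 𝕜 k (gm F G) d (ex 𝕜 S) ∈
        RH 𝕜 k (ZF (E ∪ {F, G})) := by
  classical
  obtain ⟨N1, h1⟩ := sub_hom hF hG hp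
  obtain ⟨N2, h2⟩ := sub_hom hF hG hq
  obtain ⟨c, P, hc, hPh, hP⟩ := h1 (max N1 N2) (le_max_left _ _)
  obtain ⟨c', Q, hc', hQh, hQ⟩ := h2 (max N1 N2) (le_max_right _ _)
  have hspan : Ideal.span {gm F G} ≤ W.asIdeal := by
    rw [Ideal.span_singleton_le_iff_mem]
    exact hgW
  have hunit : ∀ a : Fn K, a ≠ 0 → IsUnit (C a : MvPolynomial σ (Fn K)) := fun a ha =>
    (isUnit_iff_ne_zero.2 ha).map C
  have hCW : ∀ a : Fn K, a ≠ 0 → (C a : MvPolynomial σ (Fn K)) ∉ W.asIdeal := fun a ha h =>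
    W.2.ne_top (Ideal.eq_top_of_isUnit_mem _ h (hunit a ha))
  have key : ∀ (a : Fn K) (r : MvPolynomial σ (Fn K)) (T : MvPolynomial σ K), a ≠ 0 →
      r ∉ W.asIdeal → bc T - C a * (bc G) ^ (max N1 N2) * r ∈ Ideal.span {gm F G} →
      T ∉ (ct K (A := MvPolynomial σ K) W).asIdeal ∧
      divCyc (Fn K) 𝕜 k W (bc T) =
        ((max N1 N2 : ℕ) : 𝕜) • divCyc (Fn K) 𝕜 k W (bc G) + divCyc (Fn K) 𝕜 k W r := by
    intro a r T ha hr hT
    have hGN : (bc G) ^ (max N1 N2) ∉ W.asIdeal := fun h => hGW (W.2.mem_of_pow_mem _ h)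
    have hCG : C a * (bc G) ^ (max N1 N2) ∉ W.asIdeal := fun h =>
      (W.2.mem_or_mem h).elim (hCW a ha) hGN
    have hCGr : C a * (bc G) ^ (max N1 N2) * r ∉ W.asIdeal := fun h =>
      (W.2.mem_or_mem h).elim hCG hr
    have hTW : bc T ∉ W.asIdeal := by
      intro h
      apply hCGr
      have h3 : C a * (bc G) ^ (max N1 N2) * r =
          bc T - (bc T - C a * (bc G) ^ (max N1 N2) * r) := by ring
      rw [h3]
      exact Ideal.sub_mem _ h (hspan hT)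
    refine ⟨hTW, ?_⟩
    rw [Sep.divCyc_congr (Fn K) 𝕜 k W _ _ (hspan hT), Sep.divCyc_mul (Fn K) 𝕜 k W hd _ _ hCG hr,
      Sep.divCyc_mul (Fn K) 𝕜 k W hd _ _ (hCW a ha) hGN, Sep.divCyc_one (Fn K) 𝕜 k W _ (hunit a ha),
      zero_add, Sep.divCyc_pow (Fn K) 𝕜 k W hd _ hGW]
  obtain ⟨hPV, hPd⟩ := key c p P hc hpW hP
  obtain ⟨hQV, hQd⟩ := key c' q Q hc' hqW hQ
  obtain ⟨H, hH⟩ := lift_div 𝕜 (k := k) (m := n + max N1 N2 * d) (E := E) hF hG hW hWE hd hgW hGW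
  have hdV : dl K (ct K (A := MvPolynomial σ K) W) = k + 1 + 1 := by
    rw [dl_graph hgW hGW, hd]
  refine ⟨divCyc K 𝕜 (k + 1) (ct K (A := MvPolynomial σ K) W) P -
    divCyc K 𝕜 (k + 1) (ct K (A := MvPolynomial σ K) W) Q,
    mem_RH 𝕜 ((mem_ZF E W).1 hWE) (homP_ct hW) hdV hPh hQh hPV hQV, ?_⟩
  have h3 := hH P hPh hPV
  have h4 := hH Q hQh hQV
  have h5 := Submodule.sub_mem _ h4 h3
  rw [map_sub, map_sub]
  rw [hPd] at h5
  rw [hQd] at h5
  convert h5 using 1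
  abel

/-- All relations: span induction; for `W ∈ ZF E`, `gm F G ∈ W`: if `bc G ∈ W` then
`W ∈ ZF (E ∪ {F, G})` (`gm_mem_G`), take `S = 0`; otherwise `lift_rel`. -/
theorem lift_RH {k d : ℕ} {E : Set (MvPolynomial σ K)} (hF : F.IsHomogeneous d)
    (hG : G.IsHomogeneous d) {y : PrimeSpectrum (MvPolynomial σ (Fn K)) →₀ 𝕜}
    (hy : y ∈ RH 𝕜 k {Q | Q ∈ ZF E ∧ gm F G ∈ Q.asIdeal}) :
    ∃ S ∈ RH 𝕜 (k + 1) (Zs E), y - Phi 𝕜 k (gm F G) d (ex 𝕜 S) ∈
      RH 𝕜 k (ZF (E ∪ {F, G})) := by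
  unfold RH at hy
  induction hy using Submodule.span_induction with
  | mem z hz =>
    obtain ⟨W, ⟨hWE, hgW⟩, hW, hd, n, f, g, hf, hg, hfW, hgW', rfl⟩ := hz
    by_cases hGW : bc G ∈ W.asIdeal
    · refine ⟨0, Submodule.zero_mem _, ?_⟩
      rw [map_zero, map_zero, sub_zero]
      refine mem_RH 𝕜 ?_ hW hd hf hg hfW hgW'
      have hFW := gm_mem_G hgW hGW
      rintro r ⟨e, he, rfl⟩
      rcases he with he | he
      · exact hWE _ ⟨e, he, rfl⟩
      · rcases he with rfl | he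
        · exact hFW
        · rw [Set.mem_singleton_iff] at he
          rw [he]
          exact hGW
    · exact lift_rel 𝕜 hF hG hW hWE hd hgW hGW hf hg hfW hgW'
  | zero =>
    refine ⟨0, Submodule.zero_mem _, ?_⟩
    rw [map_zero, map_zero, sub_zero]
    exact Submodule.zero_mem _
  | add x y _ _ hx hy =>
    obtain ⟨S, hS, h1⟩ := hx
    obtain ⟨S', hS', h2⟩ := hy
    refine ⟨S + S', Submodule.add_mem _ hS hS', ?_⟩
    rw [map_add, map_add, add_sub_add_comm]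
    exact Submodule.add_mem _ h1 h2
  | smul c x _ hx =>
    obtain ⟨S, hS, h1⟩ := hx
    refine ⟨c • S, Submodule.smul_mem _ _ hS, ?_⟩
    rw [map_smul, map_smul, ← smul_sub]
    exact Submodule.smul_mem _ _ h1

end Pool.Agent.Bloch.Pcl
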