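import Pool.Agent.Pcl.SpC
import Pool.Agent.Pcl.LiftB
import Pool.Agent.Pcl.Hor

/-! Cycles on the base locus of a pencil which are rationally equivalent to zero on the general
member. -/

set_option linter.unusedSectionVars false

open MvPolynomial

namespace Pool.Agent.Bloch.Pcl

open Pool.Agent.Bloch.Sep

attribute [local instance] MvPolynomial.algebraMvPolynomial

variable {K : Type} [Field K] {σ : Type} [Finite σ] (𝕜 : Type) [Field 𝕜] [CharZero 𝕜]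

open Classical in
/-- intersection of the members of the pencil with the base locus: with `G` for the subvarieties on
which `G` does not vanish, with `F` for the others -/
noncomputable def Ys (k d : ℕ) (F G : MvPolynomial σ K) :
    (PrimeSpectrum (MvPolynomial σ K) →₀ 𝕜) →ₗ[𝕜] (PrimeSpectrum (MvPolynomial σ K) →₀ 𝕜) :=
  Finsupp.linearCombination 𝕜 (fun T : PrimeSpectrum (MvPolynomial σ K) =>
    if G ∈ T.asIdeal then Phi 𝕜 k F d (Finsupp.single T 1)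
    else Phi 𝕜 k G d (Finsupp.single T 1))

theorem ys_single_of_mem {k d : ℕ} {F G : MvPolynomial σ K}
    {T : PrimeSpectrum (MvPolynomial σ K)} (h : G ∈ T.asIdeal) :
    Ys 𝕜 k d F G (Finsupp.single T 1) = Phi 𝕜 k F d (Finsupp.single T 1) := by
  unfold Ys
  rw [Finsupp.linearCombination_single, one_smul, if_pos h]

theorem ys_single_of_not {k d : ℕ} {F G : MvPolynomial σ K}
    {T : PrimeSpectrum (MvPolynomial σ K)} (h : G ∉ T.asIdeal) :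
    Ys 𝕜 k d F G (Finsupp.single T 1) = Phi 𝕜 k G d (Finsupp.single T 1) := by
  unfold Ys
  rw [Finsupp.linearCombination_single, one_smul, if_neg h]

theorem pb_mem {ι M : Type} [AddCommGroup M] [Module 𝕜 M] (L : (ι →₀ 𝕜) →ₗ[𝕜] M)
    (N : Submodule 𝕜 M) {z : ι →₀ 𝕜} (h : ∀ T, z T ≠ 0 → L (Finsupp.single T 1) ∈ N) :
    L z ∈ N := by
  rw [← Finsupp.sum_single z, Finsupp.sum, map_sum]
  apply Submodule.sum_mem
  intro T hT
  have h1 : (Finsupp.single T (z T) : ι →₀ 𝕜) = z T • Finsupp.single T 1 := by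
    rw [Finsupp.smul_single, smul_eq_mul, mul_one]
  rw [h1, map_smul]
  exact Submodule.smul_mem _ _ (h T (Finsupp.mem_support_iff.1 hT))

theorem pb_ne {ι κ : Type} (L : (ι →₀ 𝕜) →ₗ[𝕜] (κ →₀ 𝕜)) {z : ι →₀ 𝕜} {q : κ}
    (h : L z q ≠ 0) : ∃ T, z T ≠ 0 ∧ L (Finsupp.single T 1) q ≠ 0 := by
  by_contra h1
  push Not at h1
  apply h
  have h2 : L z ∈ LinearMap.ker (Finsupp.lapply (R := 𝕜) q) := by
    apply pb_mem 𝕜 L
    intro T hT
    rw [LinearMap.mem_ker]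
    exact h1 T hT
  rw [LinearMap.mem_ker] at h2
  exact h2

theorem mem_zs_insert {E : Set (MvPolynomial σ K)} {F G : MvPolynomial σ K}
    {q : PrimeSpectrum (MvPolynomial σ K)} :
    q ∈ Zs (E ∪ {F, G}) ↔ q ∈ Zs E ∧ F ∈ q.asIdeal ∧ G ∈ q.asIdeal := by
  constructor
  · intro h
    exact ⟨fun f hf => h f (Or.inl hf), h F (Or.inr (Or.inl rfl)), h G (Or.inr (Or.inr rfl))⟩
  · rintro ⟨h1, h2, h3⟩ f (hf | rfl | rfl)
    · exact h1 f hf
    · exact h2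
    · exact h3

theorem mem_zf_insert {E : Set (MvPolynomial σ K)} {F G : MvPolynomial σ K}
    {Q : PrimeSpectrum (MvPolynomial σ (Fn K))} :
    Q ∈ ZF (E ∪ {F, G}) ↔ Q ∈ ZF E ∧ bc F ∈ Q.asIdeal ∧ bc G ∈ Q.asIdeal := by
  rw [mem_ZF, mem_zs_insert, ← mem_ZF]
  rfl

theorem ys_supp {k d : ℕ} {E : Set (MvPolynomial σ K)} {F G : MvPolynomial σ K}
    (hF : F.IsHomogeneous d) (hG : G.IsHomogeneous d)
    {S : PrimeSpectrum (MvPolynomial σ K) →₀ 𝕜}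
    (hS : ∀ T, S T ≠ 0 → HomP T ∧ T ∈ Zs E ∧ dl K T = k + 1 ∧
      (G ∈ T.asIdeal ∨ ∃ l : K, F + C l * G ∈ T.asIdeal))
    {q : PrimeSpectrum (MvPolynomial σ K)} (hq : Ys 𝕜 k d F G S q ≠ 0) :
    HomP q ∧ q ∈ Zs (E ∪ {F, G}) ∧ dl K q = k := by
  obtain ⟨T, hT, hTq⟩ := pb_ne 𝕜 _ hq
  obtain ⟨h1, h2, h3, h4⟩ := hS T hT
  by_cases hGT : G ∈ T.asIdeal
  · rw [ys_single_of_mem 𝕜 hGT] at hTq
    obtain ⟨a1, a2, a3, a4⟩ := phi_supp 𝕜 hF h1 h3 hTq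
    exact ⟨a1, mem_zs_insert.2 ⟨zs_up E T h2 q a2, a4, a2 hGT⟩, a3⟩
  · rw [ys_single_of_not 𝕜 hGT] at hTq
    obtain ⟨a1, a2, a3, a4⟩ := phi_supp 𝕜 hG h1 h3 hTq
    obtain ⟨l, hl⟩ := h4.resolve_left hGT
    refine ⟨a1, mem_zs_insert.2 ⟨zs_up E T h2 q a2, ?_, a4⟩, a3⟩
    have h5 : F = (F + C l * G) - C l * G := by ring
    rw [h5]
    exact Ideal.sub_mem _ (a2 hl) (Ideal.mul_mem_left _ _ a4)

/-- Comparison. Let `T` be homogeneous of dimension `k + 1` in `Zs E`. If `F, G ∈ T` then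
`gm F G ∈ eT T` and `ex_hs` (for `E ∪ {F, G}`) gives the claim. If `G ∈ T`, `F ∉ T`, then
`gm F G ≡ bc F` modulo `eT T` and both sides are equal (`divCyc_congr`, `ex_div`). If `G ∉ T`,
`F + l G ∈ T` then `gm F G ≡ C (mu - l) * bc G` modulo `eT T`, both sides are equal
(`divCyc_mul`, `divCyc_one`, `mu_ne`, `ex_div`). -/
theorem phi_ex_ys {k d : ℕ} {E : Set (MvPolynomial σ K)} {F G : MvPolynomial σ K}
    {S : PrimeSpectrum (MvPolynomial σ K) →₀ 𝕜}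
    (hS : ∀ T, S T ≠ 0 → HomP T ∧ T ∈ Zs E ∧ dl K T = k + 1 ∧
      (G ∈ T.asIdeal ∨ ∃ l : K, F + C l * G ∈ T.asIdeal)) :
    Phi 𝕜 k (gm F G) d (ex 𝕜 S) - ex 𝕜 (Ys 𝕜 k d F G S) ∈ RH 𝕜 k (ZF (E ∪ {F, G})) := by
  refine pb_mem 𝕜 ((Phi 𝕜 k (gm F G) d) ∘ₗ (ex 𝕜) - (ex 𝕜) ∘ₗ (Ys 𝕜 k d F G)) _
    (fun T hT => ?_)
  obtain ⟨h1, h2, h3, h4⟩ := hS T hT
  rw [LinearMap.sub_apply, LinearMap.comp_apply, LinearMap.comp_apply, ex_single]
  have hdT : dl (Fn K) (eT T) = k + 1 := by rw [dl_eT, h3]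
  by_cases hGT : G ∈ T.asIdeal
  · rw [ys_single_of_mem 𝕜 hGT]
    by_cases hFT : F ∈ T.asIdeal
    · rw [phi_single_of_mem 𝕜 ((gm_mem_eT F G T).2 ⟨hFT, hGT⟩), phi_single_of_mem 𝕜 hFT,
        map_smul, ← smul_sub, ← neg_sub, smul_neg]
      exact Submodule.neg_mem _ (Submodule.smul_mem _ _
        (ex_hs 𝕜 (E := E ∪ {F, G}) h1 (mem_zs_insert.2 ⟨h2, hFT, hGT⟩) h3))
    · have h5 : gm F G ∉ (eT T).asIdeal := fun h => hFT ((gm_mem_eT F G T).1 h).1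
      rw [phi_single_of_not 𝕜 h5, phi_single_of_not 𝕜 hFT, ex_div 𝕜 h3 hFT,
        Sep.divCyc_congr (Fn K) 𝕜 k (eT T) (gm F G) (bc F) (by
          have : gm F G - bc F = C (mu K) * bc G := by unfold gm; ring
          rw [this]
          exact Ideal.mul_mem_left _ _ ((bc_mem_eT T G).2 hGT)), sub_self]
      exact Submodule.zero_mem _
  · rw [ys_single_of_not 𝕜 hGT]
    obtain ⟨l, hl⟩ := h4.resolve_left hGT
    have h5 : gm F G ∉ (eT T).asIdeal := fun h => hGT ((gm_mem_eT F G T).1 h).2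
    have hu : IsUnit (C (mu K - algebraMap K (Fn K) l) : MvPolynomial σ (Fn K)) :=
      (IsUnit.mk0 _ (mu_ne l)).map C
    have hu' : (C (mu K - algebraMap K (Fn K) l) : MvPolynomial σ (Fn K)) ∉ (eT T).asIdeal :=
      fun h => (eT T).2.ne_top (Ideal.eq_top_of_isUnit_mem _ h hu)
    have hG' : bc G ∉ (eT T).asIdeal := fun h => hGT ((bc_mem_eT T G).1 h)
    rw [phi_single_of_not 𝕜 h5, phi_single_of_not 𝕜 hGT, ex_div 𝕜 h3 hGT,
      Sep.divCyc_congr (Fn K) 𝕜 k (eT T) (gm F G)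
        (C (mu K - algebraMap K (Fn K) l) * bc G) (by
          have : gm F G - C (mu K - algebraMap K (Fn K) l) * bc G =
              bc (F + C l * G) := by
            unfold gm bc
            rw [map_add, map_mul, algebraMap_def, map_C, map_sub]
            ring
          rw [this]
          exact (bc_mem_eT T _).2 hl),
      Sep.divCyc_mul (Fn K) 𝕜 k (eT T) hdT _ _ hu' hG', Sep.divCyc_one (Fn K) 𝕜 k (eT T) _ hu, zero_add,
      sub_self]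
    exact Submodule.zero_mem _

/-- THE PENCIL THEOREM. `lift_RH` gives `S ∈ RH (k + 1) (Zs E)`. All coefficients of
`ex z` and of elements of `RH k (ZF (E ∪ {F, G}))` at primes which do not contain `G` are zero
(`rh_supp`, `ex_apply_ne_zero`), so `hor_coeff` applies. Then `phi_ex_ys` and `spec` for
`z - Ys S`. -/
theorem pencil_B [IsAlgClosed K] {k d : ℕ} {E : Set (MvPolynomial σ K)} {F G : MvPolynomial σ K}
    (hF : F.IsHomogeneous d) (hG : G.IsHomogeneous d)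
    {z : PrimeSpectrum (MvPolynomial σ K) →₀ 𝕜} (hz : Sup 𝕜 z (Zs (E ∪ {F, G})) k)
    (h : ex 𝕜 z ∈ RH 𝕜 k {Q | Q ∈ ZF E ∧ gm F G ∈ Q.asIdeal}) :
    ∃ S : PrimeSpectrum (MvPolynomial σ K) →₀ 𝕜,
      (∀ T, S T ≠ 0 → HomP T ∧ T ∈ Zs E ∧ dl K T = k + 1 ∧
        (G ∈ T.asIdeal ∨ ∃ l : K, F + C l * G ∈ T.asIdeal)) ∧
      z - Ys 𝕜 k d F G S ∈ RH 𝕜 k (Zs (E ∪ {F, G})) := by
  obtain ⟨S, hS, hS2⟩ := lift_RH 𝕜 hF hG h
  have hsup := rh_supp 𝕜 (zs_up E) hS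
  have hup' : ∀ p ∈ ZF (E ∪ {F, G}), ∀ q, p ≤ q → q ∈ ZF (E ∪ {F, G}) :=
    fun p hp q hpq f hf => hpq (hp f hf)
  have hc : ∀ Q : PrimeSpectrum (MvPolynomial σ (Fn K)), bc G ∉ Q.asIdeal →
      Phi 𝕜 k (gm F G) d (ex 𝕜 S) Q = 0 := by
    intro Q hQ
    have h1 : ex 𝕜 z Q = 0 := by
      by_contra h1
      obtain ⟨T, rfl, hT⟩ := ex_apply_ne_zero 𝕜 h1
      exact hQ ((bc_mem_eT T G).2 (mem_zs_insert.1 (hz T hT).2.1).2.2)
    have h2 : (ex 𝕜 z - Phi 𝕜 k (gm F G) d (ex 𝕜 S)) Q = 0 := by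
      by_contra h2
      exact hQ (mem_zf_insert.1 (rh_supp 𝕜 hup' hS2 Q h2).2.1).2.2
    rw [Finsupp.sub_apply, h1, zero_sub, neg_eq_zero] at h2
    exact h2
  have hS3 : ∀ T, S T ≠ 0 → HomP T ∧ T ∈ Zs E ∧ dl K T = k + 1 ∧
      (G ∈ T.asIdeal ∨ ∃ l : K, F + C l * G ∈ T.asIdeal) := by
    intro T hT
    obtain ⟨a1, a2, a3⟩ := hsup T hT
    refine ⟨a1, a2, a3, ?_⟩
    by_cases hGT : G ∈ T.asIdeal
    · exact Or.inl hGT
    · exact Or.inr (hor_coeff 𝕜 hF hG (fun T hT => ⟨(hsup T hT).1, (hsup T hT).2.2⟩) hc hT hGT)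
  refine ⟨S, hS3, ?_⟩
  have : Infinite K := IsAlgClosed.instInfinite
  apply spec 𝕜
  · intro T hT
    by_cases h1 : z T = 0
    · rw [Finsupp.sub_apply, h1, zero_sub, neg_ne_zero] at hT
      exact (ys_supp 𝕜 hF hG hS3 hT).2.2
    · exact (hz T h1).2.2
  · rw [map_sub]
    have h3 := Submodule.add_mem _ hS2 (phi_ex_ys 𝕜 (d := d) hS3)
    have h4 : ex 𝕜 z - Phi 𝕜 k (gm F G) d (ex 𝕜 S) +
        (Phi 𝕜 k (gm F G) d (ex 𝕜 S) - ex 𝕜 (Ys 𝕜 k d F G S)) =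
        ex 𝕜 z - ex 𝕜 (Ys 𝕜 k d F G S) := by abel
    rw [h4] at h3
    exact h3

end Pool.Agent.Bloch.Pcl
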