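import Pool.Agent.H11.Sep.Comm

/-! Commutation of two divisors which intersect properly. -/

set_option linter.unusedSectionVars false

namespace Pool.Agent.Bloch.Pcl

open Pool.Agent.Bloch.Sep

section
variable {R : Type} [CommRing R]

private theorem kr_swap_aux (Ω : PrimeSpectrum R) (a G : R) (hG : G ∉ Ω.asIdeal) (x y : R)
    (h : a * x - G * y ∈ Ω.asIdeal) (hx : x ∈ Ω.asIdeal ⊔ Ideal.span {G}) :
    y ∈ Ω.asIdeal ⊔ Ideal.span {a} := by
  obtain ⟨w, hw, b, hb, rfl⟩ := Submodule.mem_sup.1 hx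
  obtain ⟨t, rfl⟩ := Ideal.mem_span_singleton'.1 hb
  have h1 : G * (y - t * a) ∈ Ω.asIdeal := by
    have : G * (y - t * a) = a * w - (a * (w + t * G) - G * y) := by ring
    rw [this]
    exact Ideal.sub_mem _ (Ideal.mul_mem_left _ _ hw) h
  have h2 := (Ω.2.mem_or_mem h1).resolve_left hG
  have : y = (y - t * a) + t * a := by ring
  rw [this]
  exact Submodule.add_mem_sup h2 (Ideal.mem_span_singleton'.2 ⟨t, rfl⟩)

/-- The two kernels agree. Let `N = {(x, y) | a x - G y ∈ Ω}`, a submodule of `R × R`. The maps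
`(x, y) ↦ x` onto the kernel of `a` on `R / (Ω + (G))` and `(x, y) ↦ y` onto the kernel of `G` on
`R / (Ω + (a))` are surjective, and both have the kernel `{x ∈ Ω + (G)} = {y ∈ Ω + (a)}`: if
`x = ω + t G` then `G (y - a t) ∈ Ω`, so `y - a t ∈ Ω` as `Ω` is prime and `G ∉ Ω`. -/
theorem kr_swap (Ω : PrimeSpectrum R) (a G : R) (ha : a ∉ Ω.asIdeal) (hG : G ∉ Ω.asIdeal) :
    Nonempty (Kr a (R ⧸ (Ω.asIdeal ⊔ Ideal.span {G})) ≃ₗ[R]
      Kr G (R ⧸ (Ω.asIdeal ⊔ Ideal.span {a}))) := by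
  let N : Submodule R (R × R) := Submodule.comap
    ((LinearMap.lsmul R R a) ∘ₗ (LinearMap.fst R R R) -
      (LinearMap.lsmul R R G) ∘ₗ (LinearMap.snd R R R)) Ω.asIdeal
  have hN : ∀ z : R × R, z ∈ N ↔ a * z.1 - G * z.2 ∈ Ω.asIdeal := fun z => Iff.rfl
  let f1 : N →ₗ[R] Kr a (R ⧸ (Ω.asIdeal ⊔ Ideal.span {G})) :=
    LinearMap.codRestrict _ ((Submodule.mkQ (Ω.asIdeal ⊔ Ideal.span {G})) ∘ₗ
      (LinearMap.fst R R R) ∘ₗ N.subtype) (by
      rintro ⟨⟨x, y⟩, hz⟩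
      have h1 := (hN _).1 hz
      change a • (Submodule.Quotient.mk x : R ⧸ (Ω.asIdeal ⊔ Ideal.span {G})) = 0
      rw [← Submodule.Quotient.mk_smul, Submodule.Quotient.mk_eq_zero, smul_eq_mul]
      have : a * x = (a * x - G * y) + y * G := by ring
      rw [this]
      exact Submodule.add_mem_sup h1 (Ideal.mem_span_singleton'.2 ⟨y, rfl⟩))
  let f2 : N →ₗ[R] Kr G (R ⧸ (Ω.asIdeal ⊔ Ideal.span {a})) :=
    LinearMap.codRestrict _ ((Submodule.mkQ (Ω.asIdeal ⊔ Ideal.span {a})) ∘ₗ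
      (LinearMap.snd R R R) ∘ₗ N.subtype) (by
      rintro ⟨⟨x, y⟩, hz⟩
      have h1 := (hN _).1 hz
      change G • (Submodule.Quotient.mk y : R ⧸ (Ω.asIdeal ⊔ Ideal.span {a})) = 0
      rw [← Submodule.Quotient.mk_smul, Submodule.Quotient.mk_eq_zero, smul_eq_mul]
      have : G * y = -(a * x - G * y) + x * a := by ring
      rw [this]
      exact Submodule.add_mem_sup (Ideal.neg_mem_iff _ |>.2 h1)
        (Ideal.mem_span_singleton'.2 ⟨x, rfl⟩))
  have hf1 : Function.Surjective f1 := by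
    rintro ⟨x, hx⟩
    obtain ⟨x, rfl⟩ := Submodule.Quotient.mk_surjective _ x
    change a • (Submodule.Quotient.mk x : R ⧸ (Ω.asIdeal ⊔ Ideal.span {G})) = 0 at hx
    rw [← Submodule.Quotient.mk_smul, Submodule.Quotient.mk_eq_zero, smul_eq_mul] at hx
    obtain ⟨w, hw, b, hb, h⟩ := Submodule.mem_sup.1 hx
    obtain ⟨t, rfl⟩ := Ideal.mem_span_singleton'.1 hb
    refine ⟨⟨(x, t), (hN _).2 ?_⟩, rfl⟩
    have : a * x - G * t = w := by linear_combination -h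
    change a * x - G * t ∈ Ω.asIdeal
    rw [this]
    exact hw
  have hf2 : Function.Surjective f2 := by
    rintro ⟨y, hy⟩
    obtain ⟨y, rfl⟩ := Submodule.Quotient.mk_surjective _ y
    change G • (Submodule.Quotient.mk y : R ⧸ (Ω.asIdeal ⊔ Ideal.span {a})) = 0 at hy
    rw [← Submodule.Quotient.mk_smul, Submodule.Quotient.mk_eq_zero, smul_eq_mul] at hy
    obtain ⟨w, hw, b, hb, h⟩ := Submodule.mem_sup.1 hy
    obtain ⟨t, rfl⟩ := Ideal.mem_span_singleton'.1 hb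
    refine ⟨⟨(t, y), (hN _).2 ?_⟩, rfl⟩
    have : a * t - G * y = -w := by linear_combination h
    change a * t - G * y ∈ Ω.asIdeal
    rw [this]
    exact Ideal.neg_mem_iff _ |>.2 hw
  have hk : LinearMap.ker f1 = LinearMap.ker f2 := by
    ext ⟨⟨x, y⟩, hz⟩
    have h1 := (hN _).1 hz
    change a * x - G * y ∈ Ω.asIdeal at h1
    rw [LinearMap.mem_ker, LinearMap.mem_ker]
    have e1 : f1 ⟨(x, y), hz⟩ = 0 ↔ x ∈ Ω.asIdeal ⊔ Ideal.span {G} := by
      rw [← Submodule.Quotient.mk_eq_zero, Subtype.ext_iff]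
      exact Iff.rfl
    have e2 : f2 ⟨(x, y), hz⟩ = 0 ↔ y ∈ Ω.asIdeal ⊔ Ideal.span {a} := by
      rw [← Submodule.Quotient.mk_eq_zero, Subtype.ext_iff]
      exact Iff.rfl
    rw [e1, e2]
    constructor
    · exact kr_swap_aux Ω a G hG x y h1
    · intro hy
      apply kr_swap_aux Ω G a ha y x _ hy
      have : G * y - a * x = -(a * x - G * y) := by ring
      rw [this]
      exact Ideal.neg_mem_iff _ |>.2 h1
  exact ⟨((f1.quotKerEquivOfSurjective hf1).symm.trans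
    (Submodule.quotEquivOfEq _ _ hk)).trans (f2.quotKerEquivOfSurjective hf2)⟩

end

variable (K : Type) [Field K] (𝕜 : Type) [Field 𝕜] [CharZero 𝕜]
variable {R : Type} [CommRing R] [Algebra K R] [Algebra.EssFiniteType K R] [IsNoetherianRing R]

private theorem comm_half (k : ℕ) (Ω : PrimeSpectrum R) (a G : R)
    (hG : G ∉ Ω.asIdeal) (hd : dl K Ω = k + 2)
    (hdim : ∀ q : PrimeSpectrum R, Ω ≤ q → a ∈ q.asIdeal → G ∈ q.asIdeal → dl K q ≤ k) :
    dcyc K 𝕜 k a (divCyc K 𝕜 (k + 1) Ω G) =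
      cyc K 𝕜 (R := R) k (R ⧸ (Ω.asIdeal ⊔ Ideal.span {G} ⊔ Ideal.span {a})) -
      cyc K 𝕜 (R := R) k (Kr a (R ⧸ (Ω.asIdeal ⊔ Ideal.span {G}))) := by
  set M := R ⧸ (Ω.asIdeal ⊔ Ideal.span {G}) with hM
  have hsup : ∀ q : PrimeSpectrum R, q ∈ Module.support R M ↔ Ω ≤ q ∧ G ∈ q.asIdeal :=
    fun q => support_div Ω G q
  have key := cyc_ck_kr_exact K 𝕜 k a (Module.support R M)
    (fun q hq => (bd_div K (k := k + 1) (by omega) hG).2 q hq) (by
      intro q hq hdq haq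
      rw [hsup] at hq
      have := hdim q hq.1 haq hq.2
      omega) (inferInstance : Module.Finite R M) subset_rfl
  have e1 : divCyc K 𝕜 (k + 1) Ω G = cyc K 𝕜 (R := R) (k + 1) M := rfl
  rw [e1, ← key]
  congr 1
  exact cyc_congr K 𝕜 (ckQuot _ a)

/-- `cyc_ck_kr_exact` for `M = R / (Ω + (G))` and the element `a`, and for `M = R / (Ω + (a))` and
the element `G` (see `dcyc_half` in H11/Sep/Comm); `kr_swap`; the two cokernels are both
`R / (Ω + (a) + (G))` (`ckQuot`). -/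
theorem comm_proper (k : ℕ) (Ω : PrimeSpectrum R) (a G : R) (ha : a ∉ Ω.asIdeal)
    (hG : G ∉ Ω.asIdeal) (hd : dl K Ω = k + 2)
    (hdim : ∀ q : PrimeSpectrum R, Ω ≤ q → a ∈ q.asIdeal → G ∈ q.asIdeal → dl K q ≤ k) :
    dcyc K 𝕜 k a (divCyc K 𝕜 (k + 1) Ω G) = dcyc K 𝕜 k G (divCyc K 𝕜 (k + 1) Ω a) := by
  rw [comm_half K 𝕜 k Ω a G hG hd hdim,
    comm_half K 𝕜 k Ω G a ha hd (fun q h1 h2 h3 => hdim q h1 h3 h2), sup_right_comm]
  congr 1
  exact cyc_congr K 𝕜 (kr_swap Ω a G ha hG).some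

end Pool.Agent.Bloch.Pcl
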