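import Pool.Agent.Pcl.HsB

/-! The symmetry theorem. -/

set_option linter.unusedSectionVars false

open MvPolynomial

namespace Pool.Agent.Bloch.Pcl

open Pool.Agent.Bloch.Sep

variable {K : Type} [Field K] {σ : Type} [Finite σ] (𝕜 : Type) [Field 𝕜] [CharZero 𝕜]
variable {k : ℕ} {W : PrimeSpectrum (MvPolynomial σ K)} {P g : MvPolynomial σ K}

/-- THE SYMMETRY of the intersection with `P` and with `g`. -/
theorem KI (hWh : HomP W) (hW : dl K W = k + 2) {e d : ℕ} (hPh : P.IsHomogeneous e)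
    (hg : g.IsHomogeneous d) (hP : P ∉ W.asIdeal) (hgW : g ∉ W.asIdeal) :
    Phi 𝕜 k g d (divCyc K 𝕜 (k + 1) W P) - Phi 𝕜 k P e (divCyc K 𝕜 (k + 1) W g) ∈
      RH 𝕜 k (XX W P g) := by
  let _ := Fintype.ofFinite σ
  exact Pen.key_id hWh hW hPh hg hP hgW

end Pool.Agent.Bloch.Pcl
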