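import Pool.Agent.H11.Sep.RH
import Pool.Agent.H11.Sep.Comm
import Pool.Agent.Bloch.Grade2
import Pool.Agent.Bloch.Gal6

/-! Pencils: definitions. -/

set_option linter.unusedSectionVars false

open MvPolynomial

namespace Pool.Agent.Bloch.Pcl

open Pool.Agent.Bloch.Sep

/-! ### filtrations in a modular lattice -/

section lattice
variable {L A : Type} [Lattice L] [AddCommGroup A]

/-- a chain of steps from `a` to `b`, with its value -/
inductive Ch (St : L → L → A → Prop) : L → L → A → Prop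
  | refl (a : L) : Ch St a a 0
  | step {a b c : L} {z y : A} : Ch St a b z → St b c y → Ch St a c (z + y)

/-- an additive function on a class of intervals closed under subintervals and transposition -/
structure IsStep (H : L → Prop) (St : L → L → A → Prop) : Prop where
  le : ∀ {a b z}, St a b z → a ≤ b
  left : ∀ {a b z}, St a b z → H a
  right : ∀ {a b z}, St a b z → H b
  uniq : ∀ {a b z z'}, St a b z → St a b z' → z = z'
  split : ∀ {a b z}, St a b z → ∀ x, H x → a ≤ x → x ≤ b →
    ∃ u w, St a x u ∧ St x b w ∧ z = u + w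
  up : ∀ {a b z}, H b → St (a ⊓ b) a z → St b (a ⊔ b) z
  down : ∀ {a b z}, H a → St b (a ⊔ b) z → St (a ⊓ b) a z

end lattice

/-! ### subquotients -/

section sq
variable {R : Type} [CommRing R]

/-- the subquotient `J / (I ∩ J)` -/
abbrev Sq (I J : Ideal R) : Type := J ⧸ Submodule.comap J.subtype I

end sq

section proj
variable {K : Type} [Field K] {σ : Type} [Finite σ] (𝕜 : Type) [Field 𝕜] [CharZero 𝕜]

open Classical in
/-- the hyperplane section of a subvariety by a variable which does not vanish on it -/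
noncomputable def Hs (k : ℕ) (T : PrimeSpectrum (MvPolynomial σ K)) :
    PrimeSpectrum (MvPolynomial σ K) →₀ 𝕜 :=
  if h : ∃ s, (X s : MvPolynomial σ K) ∉ T.asIdeal then divCyc K 𝕜 k T (X h.choose) else 0

open Classical in
/-- the intersection with the form `g` of degree `e` -/
noncomputable def Phi (k : ℕ) (g : MvPolynomial σ K) (e : ℕ) :
    (PrimeSpectrum (MvPolynomial σ K) →₀ 𝕜) →ₗ[𝕜] (PrimeSpectrum (MvPolynomial σ K) →₀ 𝕜) :=
  Finsupp.linearCombination 𝕜 (fun T : PrimeSpectrum (MvPolynomial σ K) =>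
    if g ∈ T.asIdeal then (e : 𝕜) • Hs 𝕜 k T else divCyc K 𝕜 k T g)

/-- homogeneous cycles of dimension `k` on `Z` -/
def Sup (z : PrimeSpectrum (MvPolynomial σ K) →₀ 𝕜) (Z : Set (PrimeSpectrum (MvPolynomial σ K)))
    (k : ℕ) : Prop :=
  ∀ q, z q ≠ 0 → HomP q ∧ q ∈ Z ∧ dl K q = k

/-- cycles modulo rational equivalence on `XX` -/
abbrev CA (k : ℕ) (XX : Set (PrimeSpectrum (MvPolynomial σ K))) : Type :=
  (PrimeSpectrum (MvPolynomial σ K) →₀ 𝕜) ⧸ RH 𝕜 k XX

/-- the class of a cycle -/
noncomputable abbrev mkA (k : ℕ) (XX : Set (PrimeSpectrum (MvPolynomial σ K))) :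
    (PrimeSpectrum (MvPolynomial σ K) →₀ 𝕜) →ₗ[𝕜] CA 𝕜 k XX := (RH 𝕜 k XX).mkQ

/-- the steps: subquotients of dimension at most `k`, and subquotients of rank one over a
subvariety of dimension `k + 1` -/
def St (k : ℕ) (XX : Set (PrimeSpectrum (MvPolynomial σ K))) (I J : Ideal (MvPolynomial σ K))
    (z : CA 𝕜 k XX) : Prop :=
  I ≤ J ∧ HomI I ∧ HomI J ∧
  ((Bd K (R := MvPolynomial σ K) k (Sq I J) ∧ z = mkA 𝕜 k XX (cyc K 𝕜 k (Sq I J))) ∨
   ∃ T ∈ XX, HomP T ∧ dl K T = k + 1 ∧ (∀ r ∈ T.asIdeal, ∀ x ∈ J, r * x ∈ I) ∧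
     ∃ (m : ℕ) (h : MvPolynomial σ K), h.IsHomogeneous m ∧ h ∈ J ∧
      (∀ r, r * h ∈ I ↔ r ∈ T.asIdeal) ∧
      Bd K (R := MvPolynomial σ K) k (Sq (I ⊔ Ideal.span {h}) J) ∧
      z = mkA 𝕜 k XX (cyc K 𝕜 k (Sq (I ⊔ Ideal.span {h}) J) - (m : 𝕜) • Hs 𝕜 k T))

/-- intervals of ideals killed by `P` and `g` -/
structure Good (W : PrimeSpectrum (MvPolynomial σ K)) (P g : MvPolynomial σ K)
    (I J : Ideal (MvPolynomial σ K)) : Prop where
  le : I ≤ J
  hI : HomI I
  hJ : HomI J
  hW : W.asIdeal ≤ I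
  hP : ∀ x ∈ J, P * x ∈ I
  hg : ∀ x ∈ J, g * x ∈ I

/-- the set of subvarieties of `W` on which `P` and `g` vanish -/
def XX (W : PrimeSpectrum (MvPolynomial σ K)) (P g : MvPolynomial σ K) :
    Set (PrimeSpectrum (MvPolynomial σ K)) := {T | W ≤ T ∧ P ∈ T.asIdeal ∧ g ∈ T.asIdeal}

/-- the ideal `g J + W` -/
noncomputable def gs (W : PrimeSpectrum (MvPolynomial σ K)) (g : MvPolynomial σ K)
    (J : Ideal (MvPolynomial σ K)) : Ideal (MvPolynomial σ K) := Ideal.span {g} * J ⊔ W.asIdeal

open Classical in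
/-- the value of an interval -/
noncomputable def cv (k : ℕ) (XX : Set (PrimeSpectrum (MvPolynomial σ K)))
    (I J : Ideal (MvPolynomial σ K)) : CA 𝕜 k XX :=
  if h : ∃ z, Ch (St 𝕜 k XX) I J z then h.choose else 0

/-- the value of the multiplication by `g` on an interval -/
noncomputable def chi (k : ℕ) (XX : Set (PrimeSpectrum (MvPolynomial σ K)))
    (W : PrimeSpectrum (MvPolynomial σ K)) (g : MvPolynomial σ K)
    (I J : Ideal (MvPolynomial σ K)) : CA 𝕜 k XX :=
  cv 𝕜 k XX (I ⊔ gs W g J) J - cv 𝕜 k XX (gs W g I) (I ⊓ gs W g J)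

/-- closed sets defined by polynomials -/
def Zs (E : Set (MvPolynomial σ K)) : Set (PrimeSpectrum (MvPolynomial σ K)) :=
  {Q | ∀ f ∈ E, f ∈ Q.asIdeal}

end proj

/-! ### the function field of the line -/

section ext

/-- the function field of the line -/
abbrev Fn (K : Type) [Field K] : Type := FractionRing (Polynomial K)

/-- the coordinate on the line -/
noncomputable def mu (K : Type) [Field K] : Fn K := algebraMap (Polynomial K) (Fn K) Polynomial.X

attribute [local instance] MvPolynomial.algebraMvPolynomial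

variable {K : Type} [Field K] {σ : Type} [Finite σ] (𝕜 : Type) [Field 𝕜] [CharZero 𝕜]

/-- the extension of polynomials -/
noncomputable abbrev bc (f : MvPolynomial σ K) : MvPolynomial σ (Fn K) :=
  algebraMap (MvPolynomial σ K) (MvPolynomial σ (Fn K)) f

/-- the map from polynomials with coefficients in `K[μ]` -/
noncomputable def Th (K : Type) [Field K] (σ : Type) [Finite σ] :
    Polynomial (MvPolynomial σ K) →ₐ[K] MvPolynomial σ (Fn K) :=
  (Polynomial.aeval (R := MvPolynomial σ K) (C (mu K) : MvPolynomial σ (Fn K))).restrictScalars K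

/-- a polynomial in `μ` with constant coefficients -/
noncomputable def cC (σ : Type) (c : Polynomial K) : Polynomial (MvPolynomial σ K) :=
  c.map (C : K →+* MvPolynomial σ K)

/-- the nonzero polynomials in `μ` with constant coefficients -/
noncomputable def SC (K : Type) [Field K] (σ : Type) : Submonoid (Polynomial (MvPolynomial σ K)) :=
  (nonZeroDivisors (Polynomial K)).map
    (Polynomial.mapRingHom (C : K →+* MvPolynomial σ K) : Polynomial K →* _)

/-- specialisation at `μ = λ` -/
noncomputable def ev (K : Type) [Field K] (σ : Type) [Finite σ] (l : K) :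
    Polynomial (MvPolynomial σ K) →ₐ[K] MvPolynomial σ K :=
  (Polynomial.aeval (R := MvPolynomial σ K) (C l : MvPolynomial σ K)).restrictScalars K

end ext

end Pool.Agent.Bloch.Pcl
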