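import Pool.Agent.Pcl.Defs

/-! Extension of the base field to the function field of the line. -/

set_option linter.unusedSectionVars false

open MvPolynomial

namespace Pool.Agent.Bloch.Pcl

open Pool.Agent.Bloch.Sep

attribute [local instance] MvPolynomial.algebraMvPolynomial

variable {K : Type} [Field K] {σ : Type} [Finite σ] (𝕜 : Type) [Field 𝕜] [CharZero 𝕜]

instance essFn : Algebra.EssFiniteType K (Fn K) := by
  have : Algebra.EssFiniteType (Polynomial K) (Fn K) :=
    Algebra.EssFiniteType.of_isLocalization (Fn K) (nonZeroDivisors (Polynomial K))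
  exact Algebra.EssFiniteType.comp K (Polynomial K) (Fn K)

instance essR' : Algebra.EssFiniteType K (MvPolynomial σ (Fn K)) := by
  exact Algebra.EssFiniteType.comp K (Fn K) (MvPolynomial σ (Fn K))

instance flatR' : Module.Flat (MvPolynomial σ K) (MvPolynomial σ (Fn K)) := by
  exact Module.Flat.isBaseChange K (MvPolynomial σ K) (Fn K) (MvPolynomial σ (Fn K))
    (Algebra.IsPushout.out (R := K) (S := MvPolynomial σ K) (R' := Fn K)
      (S' := MvPolynomial σ (Fn K)))

theorem td_Fn : td K (Fn K) = 1 := by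
  have h1 : td K (Polynomial K) = td K (Fn K) := by
    apply td_eq_of_algebraic K (IsScalarTower.toAlgHom K (Polynomial K) (Fn K))
      (IsFractionRing.injective (Polynomial K) (Fn K))
    intro b
    obtain ⟨a, u, hu, rfl⟩ := IsFractionRing.div_surjective (A := Polynomial K) b
    have hu0 : u ≠ 0 := nonZeroDivisors.ne_zero hu
    have hu1 : algebraMap (Polynomial K) (Fn K) u ≠ 0 := by
      intro h
      exact hu0 ((FaithfulSMul.algebraMap_eq_zero_iff (Polynomial K) (Fn K)).1 h)
    refine ⟨Polynomial.C u * Polynomial.X - Polynomial.C a, ?_, ?_⟩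
    · intro h
      have h2 := congrArg (fun p => Polynomial.coeff p 1) h
      simp [Polynomial.coeff_C] at h2
      exact hu0 h2
    · rw [Polynomial.eval₂_sub, Polynomial.eval₂_mul, Polynomial.eval₂_C, Polynomial.eval₂_X,
        Polynomial.eval₂_C]
      change algebraMap (Polynomial K) (Fn K) u * (algebraMap (Polynomial K) (Fn K) a /
        algebraMap (Polynomial K) (Fn K) u) - algebraMap (Polynomial K) (Fn K) a = 0
      rw [mul_div_cancel₀ _ hu1, sub_self]
  have h2 : td K K = 0 := by
    unfold td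
    rw [_root_.trdeg_eq_zero_iff.2 inferInstance, map_zero]
  rw [← h1, td_polynomial K K, h2]

theorem mu_ne (l : K) : mu K - algebraMap K (Fn K) l ≠ 0 := by
  intro h
  have h1 : algebraMap (Polynomial K) (Fn K) (Polynomial.X - Polynomial.C l) = 0 := by
    rw [map_sub]
    exact h
  exact Polynomial.X_sub_C_ne_zero l
    ((FaithfulSMul.algebraMap_eq_zero_iff (Polynomial K) (Fn K)).1 h1)

theorem th_C (f : MvPolynomial σ K) : Th K σ (Polynomial.C f) = bc f := by
  exact Polynomial.aeval_C (C (mu K) : MvPolynomial σ (Fn K)) f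

theorem th_X : Th K σ Polynomial.X = C (mu K) := by
  exact Polynomial.aeval_X (R := MvPolynomial σ K) (C (mu K) : MvPolynomial σ (Fn K))

theorem th_cC (c : Polynomial K) :
    Th K σ (cC σ c) = C (algebraMap (Polynomial K) (Fn K) c) := by
  induction c using Polynomial.induction_on' with
  | add p q hp hq =>
    unfold cC at hp hq ⊢
    rw [Polynomial.map_add, map_add, map_add, map_add, hp, hq]
  | monomial n a =>
    unfold cC
    rw [Polynomial.map_monomial, ← Polynomial.C_mul_X_pow_eq_monomial,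
      ← Polynomial.C_mul_X_pow_eq_monomial, map_mul, map_pow, th_C, th_X, map_mul, map_mul,
      map_pow, map_pow]
    congr 1
    change MvPolynomial.map (algebraMap K (Fn K)) (C a) = _
    exact MvPolynomial.map_C _ _

/-- in coordinates: `Th q = ∑ j, μ ^ j q_j` -/
theorem th_eq_sum (q : Polynomial (MvPolynomial σ K)) :
    Th K σ q = ∑ j ∈ q.support, C (mu K ^ j) * bc (q.coeff j) := by
  change Polynomial.aeval (R := MvPolynomial σ K) (C (mu K) : MvPolynomial σ (Fn K)) q = _
  rw [Polynomial.aeval_def, Polynomial.eval₂_eq_sum, Polynomial.sum]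
  apply Finset.sum_congr rfl
  intro j _
  rw [mul_comm, map_pow]

theorem ExtA_coeff_th (q : Polynomial (MvPolynomial σ K)) (m : σ →₀ ℕ) :
    coeff m (Th K σ q) = algebraMap (Polynomial K) (Fn K)
      (∑ j ∈ q.support, Polynomial.monomial j (coeff m (q.coeff j))) := by
  rw [th_eq_sum, coeff_sum, map_sum]
  apply Finset.sum_congr rfl
  intro j _
  rw [coeff_C_mul, ← Polynomial.C_mul_X_pow_eq_monomial, map_mul, map_pow, mul_comm]
  congr 1

/-- `Th` is injective (compare the coefficients of the monomials in the variables) -/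
theorem th_inj : Function.Injective (Th K σ) := by
  rw [injective_iff_map_eq_zero]
  intro q hq
  apply Polynomial.ext
  intro j
  rw [Polynomial.coeff_zero]
  by_contra hj
  apply hj
  have hjs : j ∈ q.support := Polynomial.mem_support_iff.2 hj
  apply MvPolynomial.ext
  intro m
  rw [coeff_zero]
  have h1 := ExtA_coeff_th q m
  rw [hq, coeff_zero] at h1
  have h2 := (FaithfulSMul.algebraMap_eq_zero_iff (Polynomial K) (Fn K)).1 h1.symm
  have h3 := congrArg (fun p => Polynomial.coeff p j) h2
  simp only [Polynomial.finsetSum_coeff, Polynomial.coeff_monomial, Polynomial.coeff_zero,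
    Finset.sum_ite_eq', if_pos hjs] at h3
  exact h3

theorem ExtA_hc_bc (f : MvPolynomial σ K) (n : ℕ) :
    homogeneousComponent n (bc f) = bc (homogeneousComponent n f) := by
  apply MvPolynomial.ext
  intro m
  change _ = coeff m (MvPolynomial.map (algebraMap K (Fn K)) (homogeneousComponent n f))
  rw [coeff_homogeneousComponent, coeff_map, coeff_homogeneousComponent]
  split_ifs
  · change coeff m (MvPolynomial.map (algebraMap K (Fn K)) f) = _
    rw [coeff_map]
  · rw [map_zero]

/-- homogeneous components -/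
theorem th_hc (q : Polynomial (MvPolynomial σ K)) (n : ℕ) :
    homogeneousComponent n (Th K σ q) =
      Th K σ (∑ j ∈ q.support, Polynomial.monomial j (homogeneousComponent n (q.coeff j))) := by
  rw [th_eq_sum, map_sum, map_sum]
  apply Finset.sum_congr rfl
  intro j _
  rw [homogeneousComponent_C_mul, ExtA_hc_bc, ← Polynomial.C_mul_X_pow_eq_monomial, map_mul,
    map_pow (Th K σ), th_C, th_X, mul_comm, map_pow]

/-- clearing denominators -/
theorem th_clear (f : MvPolynomial σ (Fn K)) :
    ∃ (c : Polynomial K) (q : Polynomial (MvPolynomial σ K)), c ≠ 0 ∧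
      C (algebraMap (Polynomial K) (Fn K) c) * f = Th K σ q := by
  induction f using MvPolynomial.induction_on' with
  | monomial m r =>
    obtain ⟨a, u, hu, rfl⟩ := IsFractionRing.div_surjective (A := Polynomial K) r
    have hu0 : u ≠ 0 := nonZeroDivisors.ne_zero hu
    have hu1 : algebraMap (Polynomial K) (Fn K) u ≠ 0 := by
      intro h
      exact hu0 ((FaithfulSMul.algebraMap_eq_zero_iff (Polynomial K) (Fn K)).1 h)
    refine ⟨u, cC σ a * Polynomial.C (monomial m 1), hu0, ?_⟩
    rw [map_mul, th_cC, th_C, C_mul_monomial, mul_div_cancel₀ _ hu1]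
    change _ = _ * MvPolynomial.map (algebraMap K (Fn K)) (monomial m 1)
    rw [MvPolynomial.map_monomial, map_one, C_mul_monomial, mul_one]
  | add f g hf hg =>
    obtain ⟨c, q, hc, h1⟩ := hf
    obtain ⟨d, r, hd, h2⟩ := hg
    refine ⟨c * d, cC σ d * q + cC σ c * r, mul_ne_zero hc hd, ?_⟩
    rw [map_add, map_mul (Th K σ), map_mul (Th K σ), th_cC, th_cC, ← h1, ← h2, map_mul, map_mul]
    ring

/-- clearing denominators of a form -/
theorem th_clear_hom {n : ℕ} (f : MvPolynomial σ (Fn K)) (hf : f.IsHomogeneous n) :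
    ∃ (c : Polynomial K) (q : Polynomial (MvPolynomial σ K)), c ≠ 0 ∧
      C (algebraMap (Polynomial K) (Fn K) c) * f = Th K σ q ∧
      ∀ j, (q.coeff j).IsHomogeneous n := by
  obtain ⟨c, q, hc, h1⟩ := th_clear f
  refine ⟨c, ∑ j ∈ q.support, Polynomial.monomial j (homogeneousComponent n (q.coeff j)), hc,
    ?_, ?_⟩
  · rw [← th_hc, ← h1, homogeneousComponent_C_mul, homogeneousComponent_eq_self hf]
  · intro j
    rw [Polynomial.finsetSum_coeff]
    apply IsHomogeneous.sum
    intro i _
    rw [Polynomial.coeff_monomial]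
    split_ifs
    · exact homogeneousComponent_isHomogeneous _ _
    · exact isHomogeneous_zero _ _ _

theorem th_frac : Frac K (Th K σ) (SC K σ) := by
  intro t
  obtain ⟨c, q, hc, h⟩ := th_clear t
  refine ⟨cC σ c, ⟨c, mem_nonZeroDivisors_of_ne_zero hc, rfl⟩, q, ?_⟩
  rw [th_cC, mul_comm, h]

/-- all primes of `MvPolynomial σ (Fn K)` avoid the constants -/
theorem th_uset (Q : PrimeSpectrum (MvPolynomial σ (Fn K))) : Q ∈ Uset K (Th K σ) (SC K σ) := by
  rintro _ ⟨c, hc, rfl⟩ hmem
  have hc0 : c ≠ 0 := nonZeroDivisors.ne_zero hc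
  have h1 : algebraMap (Polynomial K) (Fn K) c ≠ 0 := by
    intro h
    exact hc0 ((FaithfulSMul.algebraMap_eq_zero_iff (Polynomial K) (Fn K)).1 h)
  have h2 : Th K σ (cC σ c) ∈ Q.asIdeal := hmem
  rw [th_cC] at h2
  apply Q.2.ne_top
  apply Ideal.eq_top_of_isUnit_mem _ h2
  exact (IsUnit.mk0 _ h1).map C

/-- The extension of a prime is a prime: `exists_uset` for `p := ext T` gives a prime `Q` with
`ctr K (Th K σ) Q = ext T`; every `f ∈ Q` has, after clearing denominators, coefficients in `T`. -/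
theorem exists_eT (T : PrimeSpectrum (MvPolynomial σ K)) :
    ∃ Q : PrimeSpectrum (MvPolynomial σ (Fn K)), ctr K (Th K σ) Q = ext T ∧
      Q.asIdeal = T.asIdeal.map (algebraMap (MvPolynomial σ K) (MvPolynomial σ (Fn K))) := by
  obtain ⟨Q, -, hQ⟩ := exists_uset (th_frac (K := K) (σ := σ)) (ext T)
    (fun x hx => by
      rw [th_inj (hx.trans (map_zero (Th K σ)).symm)]
      exact Ideal.zero_mem _)
    (by
      rintro _ ⟨c, hc, rfl⟩ hmem
      have hc0 : c ≠ 0 := nonZeroDivisors.ne_zero hc
      apply hc0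
      apply Polynomial.ext
      intro j
      rw [Polynomial.coeff_zero]
      by_contra hj
      have h1 := (mem_ext T _).1 hmem j
      have h2 : (C (c.coeff j) : MvPolynomial σ K) ∈ T.asIdeal := by
        change (c.map (C : K →+* MvPolynomial σ K)).coeff j ∈ T.asIdeal at h1
        rwa [Polynomial.coeff_map] at h1
      apply T.2.ne_top
      apply Ideal.eq_top_of_isUnit_mem _ h2
      exact (IsUnit.mk0 _ hj).map C)
  refine ⟨Q, hQ, ?_⟩
  apply le_antisymm
  · intro f hf
    obtain ⟨c, q, hc, h⟩ := th_clear f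
    have h1 : q ∈ (ext T).asIdeal := by
      rw [← hQ, mem_ctr, ← h]
      exact Ideal.mul_mem_left _ _ hf
    rw [mem_ext] at h1
    have hc1 : algebraMap (Polynomial K) (Fn K) c ≠ 0 := by
      intro h
      exact hc ((FaithfulSMul.algebraMap_eq_zero_iff (Polynomial K) (Fn K)).1 h)
    have h2 : f = C (algebraMap (Polynomial K) (Fn K) c)⁻¹ * Th K σ q := by
      rw [← h, ← mul_assoc, ← C_mul, inv_mul_cancel₀ hc1, C_1, one_mul]
    rw [h2]
    apply Ideal.mul_mem_left
    rw [th_eq_sum]
    apply Ideal.sum_mem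
    intro j _
    exact Ideal.mul_mem_left _ _ (Ideal.mem_map_of_mem _ (h1 j))
  · rw [Ideal.map_le_iff_le_comap]
    intro f hf
    rw [Ideal.mem_comap]
    change bc f ∈ Q.asIdeal
    rw [← th_C, ← mem_ctr (K := K), hQ, mem_ext]
    intro j
    rw [Polynomial.coeff_C]
    split_ifs
    · exact hf
    · exact Ideal.zero_mem _

/-- the extension of a prime -/
noncomputable def eT (T : PrimeSpectrum (MvPolynomial σ K)) :
    PrimeSpectrum (MvPolynomial σ (Fn K)) := (exists_eT T).choose

theorem ctr_eT (T : PrimeSpectrum (MvPolynomial σ K)) : ctr K (Th K σ) (eT T) = ext T :=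
  (exists_eT T).choose_spec.1

theorem eT_asIdeal (T : PrimeSpectrum (MvPolynomial σ K)) :
    (eT T).asIdeal = T.asIdeal.map (algebraMap (MvPolynomial σ K) (MvPolynomial σ (Fn K))) :=
  (exists_eT T).choose_spec.2

theorem bc_mem_eT (T : PrimeSpectrum (MvPolynomial σ K)) (f : MvPolynomial σ K) :
    bc f ∈ (eT T).asIdeal ↔ f ∈ T.asIdeal := by
  rw [← th_C, ← mem_ctr (K := K), ctr_eT, mem_ext]
  constructor
  · intro h
    have := h 0
    rwa [Polynomial.coeff_C_zero] at this
  · intro h j
    rw [Polynomial.coeff_C]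
    split_ifs
    · exact h
    · exact Ideal.zero_mem _

theorem ct_eT (T : PrimeSpectrum (MvPolynomial σ K)) :
    ct K (A := MvPolynomial σ K) (eT T) = T := by
  apply PrimeSpectrum.ext
  ext f
  exact bc_mem_eT T f

theorem eT_inj : Function.Injective (eT : PrimeSpectrum (MvPolynomial σ K) → _) := by
  intro T T' h
  rw [← ct_eT T, ← ct_eT T', h]

theorem eT_le_iff (T : PrimeSpectrum (MvPolynomial σ K))
    (Q : PrimeSpectrum (MvPolynomial σ (Fn K))) :
    eT T ≤ Q ↔ T ≤ ct K (A := MvPolynomial σ K) Q := by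
  constructor
  · intro h
    have h1 := ctr_mono K (IsScalarTower.toAlgHom K (MvPolynomial σ K) (MvPolynomial σ (Fn K))) h
    exact (ct_eT T).symm.le.trans h1
  · intro h
    change (eT T).asIdeal ≤ Q.asIdeal
    rw [eT_asIdeal, Ideal.map_le_iff_le_comap]
    intro f hf
    exact h hf

theorem dl_eT (T : PrimeSpectrum (MvPolynomial σ K)) : dl (Fn K) (eT T) = dl K T := by
  have h1 := dl_uset (th_frac (K := K) (σ := σ)) (th_uset (eT T))
  rw [ctr_eT, dl_ext, dl_tower K (Fn K) (eT T), td_Fn] at h1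
  omega

theorem dl_fn (Q : PrimeSpectrum (MvPolynomial σ (Fn K))) : dl K Q = dl (Fn K) Q + 1 := by
  rw [dl_tower K (Fn K), td_Fn, add_comm]

theorem homP_eT {T : PrimeSpectrum (MvPolynomial σ K)} (h : HomP T) : HomP (eT T) := by
  intro f hf n
  obtain ⟨c, q, hc, h1⟩ := th_clear f
  have h2 : q ∈ (ext T).asIdeal := by
    rw [← ctr_eT, mem_ctr, ← h1]
    exact Ideal.mul_mem_left _ _ hf
  rw [mem_ext] at h2
  have h3 : C (algebraMap (Polynomial K) (Fn K) c) * homogeneousComponent n f ∈
      (eT T).asIdeal := by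
    rw [← homogeneousComponent_C_mul, h1, th_eq_sum, map_sum]
    apply Ideal.sum_mem
    intro j _
    rw [homogeneousComponent_C_mul, ExtA_hc_bc]
    apply Ideal.mul_mem_left
    rw [bc_mem_eT]
    exact h _ (h2 j) n
  refine ((eT T).2.mem_or_mem h3).resolve_left ?_
  intro h4
  have hc1 : algebraMap (Polynomial K) (Fn K) c ≠ 0 := by
    intro h
    exact hc ((FaithfulSMul.algebraMap_eq_zero_iff (Polynomial K) (Fn K)).1 h)
  apply (eT T).2.ne_top
  apply Ideal.eq_top_of_isUnit_mem _ h4
  exact (IsUnit.mk0 _ hc1).map C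

theorem homP_ct {Q : PrimeSpectrum (MvPolynomial σ (Fn K))} (h : HomP Q) :
    HomP (ct K (A := MvPolynomial σ K) Q) := by
  intro f hf n
  have h1 : bc f ∈ Q.asIdeal := hf
  have h2 := h _ h1 n
  rw [ExtA_hc_bc] at h2
  exact h2

theorem bc_homog {n : ℕ} {f : MvPolynomial σ K} (h : f.IsHomogeneous n) :
    (bc f).IsHomogeneous n := by
  exact h.map (algebraMap K (Fn K))

/-- the extension of cycles -/
noncomputable def ex : (PrimeSpectrum (MvPolynomial σ K) →₀ 𝕜) →ₗ[𝕜]
    (PrimeSpectrum (MvPolynomial σ (Fn K)) →₀ 𝕜) := Finsupp.lmapDomain 𝕜 𝕜 eT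

theorem ex_single (T : PrimeSpectrum (MvPolynomial σ K)) (c : 𝕜) :
    ex 𝕜 (Finsupp.single T c) = Finsupp.single (eT T) c := by
  unfold ex
  rw [Finsupp.lmapDomain_apply, Finsupp.mapDomain_single]

theorem ex_apply (z : PrimeSpectrum (MvPolynomial σ K) →₀ 𝕜)
    (T : PrimeSpectrum (MvPolynomial σ K)) : ex 𝕜 z (eT T) = z T := by
  unfold ex
  rw [Finsupp.lmapDomain_apply, Finsupp.mapDomain_apply eT_inj]

theorem ex_apply_ne_zero {z : PrimeSpectrum (MvPolynomial σ K) →₀ 𝕜}
    {Q : PrimeSpectrum (MvPolynomial σ (Fn K))} (h : ex 𝕜 z Q ≠ 0) :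
    ∃ T, eT T = Q ∧ z T ≠ 0 := by
  by_cases hQ : Q ∈ Set.range (eT : PrimeSpectrum (MvPolynomial σ K) → _)
  · obtain ⟨T, rfl⟩ := hQ
    rw [ex_apply] at h
    exact ⟨T, rfl, h⟩
  · exfalso
    apply h
    unfold ex
    rw [Finsupp.lmapDomain_apply]
    exact Finsupp.mapDomain_of_notMem_range _ _ hQ

theorem ex_inj : Function.Injective (ex 𝕜 :
    (PrimeSpectrum (MvPolynomial σ K) →₀ 𝕜) →ₗ[𝕜] _) := by
  exact Finsupp.mapDomain_injective eT_inj

end Pool.Agent.Bloch.Pcl
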