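import Pool.Agent.Pcl.Defs
import Pool.Agent.Bloch.Pen.ValD

/-! Hyperplane sections: basic facts. -/

set_option linter.unusedSectionVars false

open MvPolynomial

namespace Pool.Agent.Bloch.Pcl

open Pool.Agent.Bloch.Sep

variable {K : Type} [Field K] {σ : Type} [Finite σ] (𝕜 : Type) [Field 𝕜] [CharZero 𝕜]

/-- a variable does not vanish on a subvariety of dimension at least one (`dl_vars`) -/
theorem exists_X {k : ℕ} {T : PrimeSpectrum (MvPolynomial σ K)} (hd : dl K T = k + 1) :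
    ∃ s, (X s : MvPolynomial σ K) ∉ T.asIdeal := by
  by_contra hc
  push Not at hc
  rw [dl_vars K T hc] at hd
  omega

theorem hs_eq {k : ℕ} {T : PrimeSpectrum (MvPolynomial σ K)} (hd : dl K T = k + 1) :
    ∃ s, (X s : MvPolynomial σ K) ∉ T.asIdeal ∧ Hs 𝕜 k T = divCyc K 𝕜 k T (X s) := by
  have h := exists_X hd
  refine ⟨h.choose, h.choose_spec, ?_⟩
  unfold Hs
  rw [dif_pos h]

/-- the divisor of a form is a multiple of the hyperplane section -/
theorem div_sub_hs {k e : ℕ} {Z : Set (PrimeSpectrum (MvPolynomial σ K))}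
    {T : PrimeSpectrum (MvPolynomial σ K)} (hTZ : T ∈ Z) (hT : HomP T) (hd : dl K T = k + 1)
    {a : MvPolynomial σ K} (ha : a.IsHomogeneous e) (haT : a ∉ T.asIdeal) :
    divCyc K 𝕜 k T a - (e : 𝕜) • Hs 𝕜 k T ∈ RH 𝕜 k Z := by
  let _ := Fintype.ofFinite σ
  exact Pen.div_Hc hT hTZ hd ha haT

end Pool.Agent.Bloch.Pcl
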