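import Pool.Agent.Pcl.Sub
import Pool.Agent.Bloch.LocQuot

/-! Subvarieties of the general member of the pencil on which `G` does not vanish. -/

set_option linter.unusedSectionVars false

open MvPolynomial

namespace Pool.Agent.Bloch.Pcl

open Pool.Agent.Bloch.Sep

attribute [local instance] MvPolynomial.algebraMvPolynomial

variable {K : Type} [Field K] {σ : Type} [Finite σ] (𝕜 : Type) [Field 𝕜] [CharZero 𝕜]
variable {F G : MvPolynomial σ K} {W : PrimeSpectrum (MvPolynomial σ (Fn K))}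

private theorem mul_not_mem {Q : PrimeSpectrum (MvPolynomial σ (Fn K))} {c : Fn K} (hc : c ≠ 0)
    (h : bc G ∉ Q.asIdeal) (N : ℕ) : C c * (bc G) ^ N ∉ Q.asIdeal := by
  intro h1
  rcases Q.2.mem_or_mem h1 with h2 | h2
  · exact Q.2.ne_top (Ideal.eq_top_of_isUnit_mem _ h2 ((IsUnit.mk0 _ hc).map C))
  · exact h (Q.2.mem_of_pow_mem _ h2)

/-- Elements of `W` come from `V = ct W` modulo `gm F G`, up to a multiplier which is not in any
prime not containing `G` (`sub_any`: `bc P ∈ W` means `P ∈ ct W`). -/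
theorem exists_mul (hgW : gm F G ∈ W.asIdeal) (f : MvPolynomial σ (Fn K)) (hf : f ∈ W.asIdeal) :
    ∃ (N : ℕ) (c : Fn K), c ≠ 0 ∧ C c * (bc G) ^ N * f ∈
      (eT (ct K (A := MvPolynomial σ K) W)).asIdeal ⊔ Ideal.span {gm F G} := by
  obtain ⟨N, c, P, hc, h⟩ := sub_any F G f
  refine ⟨N, c, hc, ?_⟩
  have hP : bc P ∈ W.asIdeal := by
    have h1 : bc P - C c * (bc G) ^ N * f ∈ W.asIdeal :=
      (Ideal.span_singleton_le_iff_mem _).2 hgW h
    have h2 : bc P = (bc P - C c * (bc G) ^ N * f) + C c * (bc G) ^ N * f := by ring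
    rw [h2]
    exact Ideal.add_mem _ h1 (Ideal.mul_mem_left _ _ hf)
  have hP' : P ∈ (ct K (A := MvPolynomial σ K) W).asIdeal := hP
  have h3 : bc P ∈ (eT (ct K (A := MvPolynomial σ K) W)).asIdeal := (bc_mem_eT _ _).2 hP'
  have h4 : C c * (bc G) ^ N * f = bc P - (bc P - C c * (bc G) ^ N * f) := by ring
  rw [h4]
  exact Ideal.sub_mem _ (Ideal.mem_sup_left h3) (Ideal.mem_sup_right h)


/-- `W` is the only large prime which contains `ct W` and `gm F G` and does not contain `G` -/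
theorem le_of_graph (hgW : gm F G ∈ W.asIdeal) (Q : PrimeSpectrum (MvPolynomial σ (Fn K)))
    (h1 : eT (ct K (A := MvPolynomial σ K) W) ≤ Q) (h2 : gm F G ∈ Q.asIdeal)
    (h3 : bc G ∉ Q.asIdeal) : W ≤ Q := by
  intro f hf
  obtain ⟨N, c, hc, h⟩ := exists_mul hgW f hf
  have h4 : C c * (bc G) ^ N * f ∈ Q.asIdeal :=
    (sup_le h1 ((Ideal.span_singleton_le_iff_mem _).2 h2)) h
  rcases Q.2.mem_or_mem h4 with h5 | h5
  · exact absurd h5 (mul_not_mem hc h3 N)
  · exact h5


/-- The dimension of `ct W`: over `K` the dimension of `W` is `dl (Fn K) W + 1` (`dl_fn`) and it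
does not change under contraction, as modulo `W` every element of `K(μ)[x]` is a quotient of elements
of `K[x]` (`dl_ctr_eq_of_frac`). For a given `b`: `sub_any` gives `bc P ≡ C c * G ^ N * b`; write
`c u = v` with `sub_const`, `bc A ≡ C u * G ^ N'`, `bc B ≡ C v * G ^ M`; then
`b * bc (B * G ^ (N + N')) ≡ bc (P * A * G ^ M)` (both sides are `C (u c) * b * G ^ (..)`) only modulo
`W`, so pass to the equation `∃ u a, b * bc u - bc a ∈ W`, `bc u ∉ W`, and use `dl_ctr_eq` with the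
linear polynomial `u X - a`. -/
theorem dl_graph (hgW : gm F G ∈ W.asIdeal) (hGW : bc G ∉ W.asIdeal) :
    dl K (ct K (A := MvPolynomial σ K) W) = dl (Fn K) W + 1 := by
  rw [← dl_fn W]
  apply dl_ctr_eq
  intro b
  obtain ⟨N, c, P, hc, h1⟩ := sub_any F G b
  obtain ⟨N', M, A, B, u, v, hu, hv, huv, h2, h3⟩ := sub_const F G c hc
  have hsp : Ideal.span {gm F G} ≤ W.asIdeal := (Ideal.span_singleton_le_iff_mem _).2 hgW
  have h1' := hsp h1
  have h2' := hsp h2
  have h3' := hsp h3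
  have hB : bc B ∉ W.asIdeal := by
    intro h
    apply mul_not_mem hv hGW M
    have : C v * (bc G) ^ M = bc B - (bc B - C v * (bc G) ^ M) := by ring
    rw [this]
    exact Ideal.sub_mem _ h h3'
  refine ⟨Polynomial.C (B * G ^ (N + N')) * Polynomial.X - Polynomial.C (P * A * G ^ M), ?_, 1, ?_⟩
  · rw [Polynomial.eval₂_sub, Polynomial.eval₂_mul, Polynomial.eval₂_C, Polynomial.eval₂_X,
      Polynomial.eval₂_C]
    change bc (B * G ^ (N + N')) * b - bc (P * A * G ^ M) ∈ W.asIdeal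
    have e : bc (B * G ^ (N + N')) * b - bc (P * A * G ^ M) =
        (bc B - C v * (bc G) ^ M) * ((bc G) ^ (N + N') * b)
        - (bc P - C c * (bc G) ^ N * b) * (C u * (bc G) ^ N' * (bc G) ^ M)
        - (bc A - C u * (bc G) ^ N') * (bc P * (bc G) ^ M) := by
      have hcu : (C v : MvPolynomial σ (Fn K)) = C c * C u := by rw [← huv, C_mul]
      rw [hcu]
      simp only [bc, map_mul, map_pow]
      ring
    rw [e]
    exact Ideal.sub_mem _ (Ideal.sub_mem _ (Ideal.mul_mem_right _ _ h3')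
      (Ideal.mul_mem_right _ _ h1')) (Ideal.mul_mem_right _ _ h2')
  · have e : (Polynomial.C (B * G ^ (N + N')) * Polynomial.X - Polynomial.C (P * A * G ^ M)).coeff 1
        = B * G ^ (N + N') := by
      rw [Polynomial.coeff_sub, Polynomial.coeff_C_mul, Polynomial.coeff_X_one, mul_one,
        Polynomial.coeff_C, if_neg one_ne_zero, sub_zero]
    rw [e]
    intro h
    have h4 : bc (B * G ^ (N + N')) ∈ W.asIdeal := h
    simp only [bc, map_mul, map_pow] at h4
    rcases W.2.mem_or_mem h4 with h5 | h5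
    · exact hB h5
    · exact hGW (W.2.mem_of_pow_mem _ h5)


theorem g_not_mem (hGW : bc G ∉ W.asIdeal) :
    gm F G ∉ (eT (ct K (A := MvPolynomial σ K) W)).asIdeal := by
  intro h
  exact hGW ((gm_mem_eT F G _).1 h).2


/-- The divisor of `gm F G` on the extension of `V = ct W` contains `W` with multiplicity one
(`exists_mul`, `len_quot_congr`, `len_quot_self`), and `G` vanishes on all other components
(`le_of_graph`, equality of dimensions). The components are homogeneous (`homP_div`). -/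
theorem div_graph {k d : ℕ} (hF : F.IsHomogeneous d) (hG : G.IsHomogeneous d) (hW : HomP W)
    (hd : dl (Fn K) W = k + 1) (hgW : gm F G ∈ W.asIdeal) (hGW : bc G ∉ W.asIdeal) :
    ∃ D : PrimeSpectrum (MvPolynomial σ (Fn K)) →₀ 𝕜,
      divCyc (Fn K) 𝕜 (k + 1) (eT (ct K (A := MvPolynomial σ K) W)) (gm F G) =
        Finsupp.single W 1 + D ∧
      ∀ Q, D Q ≠ 0 → HomP Q ∧ dl (Fn K) Q = k + 1 ∧ eT (ct K (A := MvPolynomial σ K) W) ≤ Q ∧
        bc F ∈ Q.asIdeal ∧ bc G ∈ Q.asIdeal := by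
  classical
  have hV : dl K (ct K (A := MvPolynomial σ K) W) = k + 2 := by
    rw [dl_graph hgW hGW, hd]
  have hE : dl (Fn K) (eT (ct K (A := MvPolynomial σ K) W)) = (k + 1) + 1 := by
    rw [dl_eT, hV]
  have hn := g_not_mem (F := F) hGW
  have hEW : eT (ct K (A := MvPolynomial σ K) W) ≤ W := (eT_le_iff _ _).2 le_rfl
  have hlen : len W (MvPolynomial σ (Fn K) ⧸ ((eT (ct K (A := MvPolynomial σ K) W)).asIdeal ⊔
      Ideal.span {gm F G})) = 1 := by
    rw [len_quot_congr W (I₂ := W.asIdeal)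
      (sup_le hEW ((Ideal.span_singleton_le_iff_mem _).2 hgW)) ?_, len_quot_self]
    intro x hx
    obtain ⟨N, c, hc, h⟩ := exists_mul hgW x hx
    exact ⟨C c * (bc G) ^ N, mul_not_mem hc hGW N, h⟩
  have hW1 : divCyc (Fn K) 𝕜 (k + 1) (eT (ct K (A := MvPolynomial σ K) W)) (gm F G) W = 1 := by
    rw [divCyc_apply (Fn K) 𝕜 hE hn W hd, hlen]
    simp
  refine ⟨divCyc (Fn K) 𝕜 (k + 1) (eT (ct K (A := MvPolynomial σ K) W)) (gm F G) -
    Finsupp.single W 1, by abel, ?_⟩
  intro Q hQ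
  rw [Finsupp.sub_apply] at hQ
  have hne : Q ≠ W := by
    rintro rfl
    apply hQ
    rw [hW1, Finsupp.single_eq_same, sub_self]
  rw [Finsupp.single_eq_of_ne hne, sub_zero,
    divCyc_ne_zero_iff (Fn K) 𝕜 hE hn] at hQ
  obtain ⟨q1, q2, q3⟩ := hQ
  have hGQ : bc G ∈ Q.asIdeal := by
    by_contra hcon
    apply hne
    exact (eq_of_le_of_dl (Fn K) (le_of_graph hgW Q q2 q3 hcon) (by rw [hd, q1])).symm
  exact ⟨homP_of_div (homP_eT (homP_ct hW)) hE (gm_homog hF hG) hn q2 q3 q1, q1, q2,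
    gm_mem_G q3 hGQ, hGQ⟩


end Pool.Agent.Bloch.Pcl
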