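import Pool.Agent.Pcl.ExtA

/-! Specialisation at `μ = l`: the ring of polynomials in `μ` over `R = K[x]`. -/

set_option linter.unusedSectionVars false

open MvPolynomial

namespace Pool.Agent.Bloch.Pcl

open Pool.Agent.Bloch.Sep

attribute [local instance] MvPolynomial.algebraMvPolynomial

variable {K : Type} [Field K] {σ : Type} [Finite σ] (𝕜 : Type) [Field 𝕜] [CharZero 𝕜]

/-- the equation of the fibre -/
noncomputable def fb (K : Type) [Field K] (σ : Type) (l : K) : Polynomial (MvPolynomial σ K) :=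
  Polynomial.X - Polynomial.C (C l)

private theorem ev_apply (l : K) (q : Polynomial (MvPolynomial σ K)) :
    ev K σ l q = Polynomial.eval (C l) q := by
  unfold ev
  rw [AlgHom.restrictScalars_apply, Polynomial.coe_aeval_eq_eval]

theorem ev_C (l : K) (f : MvPolynomial σ K) : ev K σ l (Polynomial.C f) = f := by
  rw [ev_apply, Polynomial.eval_C]

theorem ev_surj (l : K) : Function.Surjective (ev K σ l) := fun f => ⟨Polynomial.C f, ev_C l f⟩

theorem ev_eq_sum (l : K) (q : Polynomial (MvPolynomial σ K)) :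
    ev K σ l q = ∑ j ∈ q.support, C (l ^ j) * q.coeff j := by
  rw [ev_apply, Polynomial.eval_eq_sum, Polynomial.sum]
  apply Finset.sum_congr rfl
  intro j _
  rw [map_pow, mul_comm]

theorem ev_eq_zero_iff (l : K) (q : Polynomial (MvPolynomial σ K)) :
    ev K σ l q = 0 ↔ q ∈ Ideal.span {fb K σ l} := by
  rw [ev_apply, Ideal.mem_span_singleton]
  unfold fb
  rw [Polynomial.dvd_iff_isRoot]
  exact Iff.rfl

private theorem ev_sub_C (l : K) (q : Polynomial (MvPolynomial σ K)) :
    q - Polynomial.C (ev K σ l q) ∈ Ideal.span {fb K σ l} := by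
  rw [← ev_eq_zero_iff, map_sub, ev_C, sub_self]

private theorem mem_iff_ev {l : K} {T : PrimeSpectrum (Polynomial (MvPolynomial σ K))}
    (h : fb K σ l ∈ T.asIdeal) (q : Polynomial (MvPolynomial σ K)) :
    q ∈ T.asIdeal ↔ Polynomial.C (ev K σ l q) ∈ T.asIdeal := by
  have h1 : q - Polynomial.C (ev K σ l q) ∈ T.asIdeal :=
    (Ideal.span_singleton_le_iff_mem _).2 h (ev_sub_C l q)
  constructor
  · intro hq
    have : Polynomial.C (ev K σ l q) = q - (q - Polynomial.C (ev K σ l q)) := by ring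
    rw [this]
    exact Ideal.sub_mem _ hq h1
  · intro hq
    have : q = (q - Polynomial.C (ev K σ l q)) + Polynomial.C (ev K σ l q) := by ring
    rw [this]
    exact Ideal.add_mem _ h1 hq

/-- primes which contain `fb l` come from the fibre -/
theorem exists_ev (l : K) (T : PrimeSpectrum (Polynomial (MvPolynomial σ K)))
    (h : fb K σ l ∈ T.asIdeal) :
    ∃ t : PrimeSpectrum (MvPolynomial σ K), ctr K (ev K σ l) t = T := by
  refine ⟨ctr K (polyC K (MvPolynomial σ K)) T, ?_⟩
  apply PrimeSpectrum.ext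
  ext q
  rw [mem_ctr, mem_ctr, mem_iff_ev h q]
  exact Iff.rfl

theorem ctr_ev_inj (l : K) : Function.Injective
    (ctr K (ev K σ l) : PrimeSpectrum (MvPolynomial σ K) → _) := by
  intro t t' h
  apply PrimeSpectrum.ext
  ext f
  have h1 : Polynomial.C f ∈ (ctr K (ev K σ l) t).asIdeal ↔
      Polynomial.C f ∈ (ctr K (ev K σ l) t').asIdeal := by rw [h]
  rw [mem_ctr, mem_ctr, ev_C] at h1
  exact h1

/-- a prime contains at most one of the elements `fb l` -/
theorem fb_unique {l l' : K} {T : PrimeSpectrum (Polynomial (MvPolynomial σ K))}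
    (h : fb K σ l ∈ T.asIdeal) (h' : fb K σ l' ∈ T.asIdeal) : l = l' := by
  by_contra hne
  have h1 : fb K σ l' - fb K σ l ∈ T.asIdeal := Ideal.sub_mem _ h' h
  have h2 : fb K σ l' - fb K σ l = Polynomial.C (C (l - l')) := by
    unfold fb
    rw [C_sub, Polynomial.C_sub]
    ring
  rw [h2] at h1
  apply T.2.ne_top
  rw [Ideal.eq_top_iff_one]
  have h3 : (1 : Polynomial (MvPolynomial σ K)) =
      Polynomial.C (C (l - l')⁻¹) * Polynomial.C (C (l - l')) := by
    rw [← Polynomial.C_mul, ← C_mul, inv_mul_cancel₀ (sub_ne_zero.2 hne), C_1, Polynomial.C_1]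
  rw [h3]
  exact Ideal.mul_mem_left _ _ h1

/-- a prime which contains the polynomial `c` in `μ` with constant coefficients, and `fb l`, gives
a root `l` of `c` -/
theorem fb_root {l : K} {c : Polynomial K} {T : PrimeSpectrum (Polynomial (MvPolynomial σ K))}
    (h : fb K σ l ∈ T.asIdeal) (h' : cC σ c ∈ T.asIdeal) : c.eval l = 0 := by
  by_contra hne
  rw [mem_iff_ev h] at h'
  have h1 : ev K σ l (cC σ c) = C (c.eval l) := by
    rw [ev_apply]
    unfold cC
    rw [Polynomial.eval_map, Polynomial.eval₂_at_apply]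
  rw [h1] at h'
  apply T.2.ne_top
  rw [Ideal.eq_top_iff_one]
  have h3 : (1 : Polynomial (MvPolynomial σ K)) =
      Polynomial.C (C (c.eval l)⁻¹) * Polynomial.C (C (c.eval l)) := by
    rw [← Polynomial.C_mul, ← C_mul, inv_mul_cancel₀ hne, C_1, Polynomial.C_1]
  rw [h3]
  exact Ideal.mul_mem_left _ _ h'

/-- contractions of primes of `K(μ)[x]` do not contain `fb l` -/
theorem fb_not_mem (l : K) (Q : PrimeSpectrum (MvPolynomial σ (Fn K))) :
    fb K σ l ∉ (ctr K (Th K σ) Q).asIdeal := by
  rw [mem_ctr]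
  intro h
  have h1 : Th K σ (fb K σ l) = C (mu K - algebraMap K (Fn K) l) := by
    unfold fb
    rw [map_sub, th_C, th_X, C_sub]
    congr 1
    unfold bc
    rw [algebraMap_def, map_C]
  rw [h1] at h
  apply Q.2.ne_top
  rw [Ideal.eq_top_iff_one]
  have h3 : (1 : MvPolynomial σ (Fn K)) =
      C (mu K - algebraMap K (Fn K) l)⁻¹ * C (mu K - algebraMap K (Fn K) l) := by
    rw [← C_mul, inv_mul_cancel₀ (mu_ne l), C_1]
  rw [h3]
  exact Ideal.mul_mem_left _ _ h

/-- the fibre of an extended prime: `divCyc_prime` with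
`(ctr (ev l) T).asIdeal = (ext T).asIdeal ⊔ span {fb l}` -/
theorem div_ext_fb {k : ℕ} (l : K) {T : PrimeSpectrum (MvPolynomial σ K)} (hd : dl K T = k) :
    divCyc K 𝕜 k (ext T) (fb K σ l) = Finsupp.single (ctr K (ev K σ l) T) 1 := by
  apply divCyc_prime
  · apply le_antisymm
    · intro q hq
      rw [mem_ctr] at hq
      have : q = Polynomial.C (ev K σ l q) + (q - Polynomial.C (ev K σ l q)) := by ring
      rw [this]
      refine Submodule.add_mem_sup ?_ (ev_sub_C l q)
      rw [mem_ext]
      intro n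
      rw [Polynomial.coeff_C]
      split_ifs
      · exact hq
      · exact Ideal.zero_mem _
    · refine sup_le ?_ ?_
      · intro q hq
        rw [mem_ext] at hq
        rw [mem_ctr, ev_eq_sum]
        exact Ideal.sum_mem _ (fun j _ => Ideal.mul_mem_left _ _ (hq j))
      · rw [Ideal.span_singleton_le_iff_mem, mem_ctr,
          (ev_eq_zero_iff l _).2 (Ideal.mem_span_singleton_self _)]
        exact Ideal.zero_mem _
  · rw [dl_ctr_surj K (ev K σ l) (ev_surj l), hd]

theorem push0_ev_inj (l : K) : Function.Injective (push0 K 𝕜 (ev K σ l)) := by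
  have h : push0 K 𝕜 (ev K σ l) = Finsupp.lmapDomain 𝕜 𝕜 (ctr K (ev K σ l)) := by
    apply Finsupp.lhom_ext
    intro Q c
    rw [push0_single, Finsupp.lmapDomain_apply, Finsupp.mapDomain_single]
  rw [h]
  exact Finsupp.mapDomain_injective (ctr_ev_inj l)

/-- evaluation of a polynomial with coefficients of degree `n` -/
theorem ev_homog (l : K) {n : ℕ} {q : Polynomial (MvPolynomial σ K)}
    (h : ∀ j, (q.coeff j).IsHomogeneous n) : (ev K σ l q).IsHomogeneous n := by
  rw [ev_eq_sum]
  apply IsHomogeneous.sum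
  intro j _
  have h1 := (isHomogeneous_C σ (l ^ j)).mul (h j)
  rwa [zero_add] at h1

/-- Components of the fibre of a homogeneous subvariety are homogeneous. Let `𝒲 = ctr Th W`, `I` the
image of `𝒲` under `ev l` (an ideal as `ev l` is surjective). `I` is homogeneous: for `f ∈ 𝒲` the
polynomial with the coefficients `homogeneousComponent n (f_j)` is in `𝒲` by `th_hc` and `HomP W`.
Every prime `P ≥ I` has `ctr (ev l) P ≥ 𝒲`, and it contains `fb l ∉ 𝒲`, so its dimension is at
most `k + 1`; `homog_min`. -/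
theorem homP_fibre {k : ℕ} {W : PrimeSpectrum (MvPolynomial σ (Fn K))} (hW : HomP W)
    (hd : dl (Fn K) W = k + 1) (l : K) {t : PrimeSpectrum (MvPolynomial σ K)}
    (ht : ctr K (Th K σ) W ≤ ctr K (ev K σ l) t) (hdt : dl K t = k + 1) : HomP t := by
  have hmem : ∀ x, x ∈ Ideal.map (ev K σ l) (ctr K (Th K σ) W).asIdeal ↔
      ∃ q, q ∈ (ctr K (Th K σ) W).asIdeal ∧ ev K σ l q = x := fun x =>
    Ideal.mem_map_iff_of_surjective (ev K σ l) (ev_surj l)
  have hI : HomI (Ideal.map (ev K σ l) (ctr K (Th K σ) W).asIdeal) := by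
    intro x hx n
    obtain ⟨q, hq, rfl⟩ := (hmem x).1 hx
    rw [hmem]
    refine ⟨∑ j ∈ q.support, Polynomial.monomial j (homogeneousComponent n (q.coeff j)), ?_, ?_⟩
    · rw [mem_ctr, ← th_hc]
      exact hW _ hq n
    · rw [map_sum, ev_eq_sum, map_sum]
      apply Finset.sum_congr rfl
      intro j _
      rw [ev_apply, Polynomial.eval_monomial, homogeneousComponent_C_mul, mul_comm, map_pow]
  apply homog_min hI t
  · intro x hx
    obtain ⟨q, hq, rfl⟩ := (hmem x).1 hx
    exact ht hq
  · intro P hP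
    rw [hdt]
    have h1 : ctr K (Th K σ) W ≤ ctr K (ev K σ l) P := by
      intro q hq
      rw [mem_ctr]
      exact hP ((hmem _).2 ⟨q, hq, rfl⟩)
    have h2 : ctr K (Th K σ) W < ctr K (ev K σ l) P := by
      apply lt_of_le_of_ne h1
      intro h3
      apply fb_not_mem l W
      rw [h3, mem_ctr, (ev_eq_zero_iff l _).2 (Ideal.mem_span_singleton_self _)]
      exact Ideal.zero_mem _
    have h3 := dl_lt K h2
    rw [dl_ctr_surj K (ev K σ l) (ev_surj l), dl_uset th_frac (th_uset W), dl_fn, hd] at h3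
    omega

end Pool.Agent.Bloch.Pcl
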