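import Pool.Agent.Pcl.SpA
import Pool.Agent.Pcl.CommP

/-! Specialisation of divisors. -/

set_option linter.unusedSectionVars false

open MvPolynomial

namespace Pool.Agent.Bloch.Pcl

open Pool.Agent.Bloch.Sep

attribute [local instance] MvPolynomial.algebraMvPolynomial

variable {K : Type} [Field K] {σ : Type} [Finite σ] (𝕜 : Type) [Field 𝕜] [CharZero 𝕜]

/-- specialisation of cycles: closure over the line, intersection with the fibre -/
noncomputable def sp (k : ℕ) (l : K) :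
    (PrimeSpectrum (MvPolynomial σ (Fn K)) →₀ 𝕜) →ₗ[𝕜]
      (PrimeSpectrum (Polynomial (MvPolynomial σ K)) →₀ 𝕜) :=
  dcyc K 𝕜 k (fb K σ l) ∘ₗ push K 𝕜 (Th K σ) (SC K σ)

/-- specialisation of constant cycles (`ex_single`, `push_single`, `th_uset`, `ctr_eT`,
`div_ext_fb`) -/
theorem sp_ex {k : ℕ} (l : K) {y : PrimeSpectrum (MvPolynomial σ K) →₀ 𝕜}
    (hy : ∀ T, y T ≠ 0 → dl K T = k) :
    sp 𝕜 k l (ex 𝕜 y) = push0 K 𝕜 (ev K σ l) y := by
  rw [← Finsupp.sum_single y, Finsupp.sum, map_sum, map_sum, map_sum]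
  apply Finset.sum_congr rfl
  intro T hT
  rw [Finsupp.mem_support_iff] at hT
  rw [ex_single, push0_single]
  unfold sp
  rw [LinearMap.comp_apply, push_single K 𝕜 _ _ (th_uset _), ctr_eT, dcyc_single,
    div_ext_fb 𝕜 l (hy T hT), Finsupp.smul_single, smul_eq_mul, mul_one]

theorem SpB_not_mem {W : PrimeSpectrum (MvPolynomial σ (Fn K))}
    {p : MvPolynomial σ (Fn K)} (hp : p ∉ W.asIdeal)
    {c : Polynomial K} (hc : c ≠ 0) {q : Polynomial (MvPolynomial σ K)}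
    (hq : C (algebraMap (Polynomial K) (Fn K) c) * p = Th K σ q) :
    q ∉ (ctr K (Th K σ) W).asIdeal := by
  rw [mem_ctr, ← hq]
  intro h
  rcases W.2.mem_or_mem h with h | h
  · have hcS : cC σ c ∈ SC K σ := ⟨c, mem_nonZeroDivisors_of_ne_zero hc, rfl⟩
    apply th_uset W (cC σ c) hcS
    rw [th_cC]
    exact h
  · exact hp h

/-- Closure of a divisor. `divCyc_tower` with `td_Fn` turns the divisor over `Fn K` into a divisor
over `K` (with `k + 1` instead of `k`), `dl_fn`. Then `transfer_div` (`θ = Th`, `S = SC`, `u = cC c`,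
`th_frac`, `th_uset`). The error term is supported on the finitely many primes `P ≥ ctr Th W` of
dimension `k + 1` with `q ∈ P` (`divCyc_ne_zero_iff`) which contain some `cC c'`, `c' ≠ 0`; if `l`
is not a root of these finitely many `c'` then `fb l ∉ P` and moreover
no prime `≥ P` contains `fb l` (`fb_root`), so `dcyc (fb l) (single P 1) = 0`. -/
theorem sp_div_aux {k : ℕ} {W : PrimeSpectrum (MvPolynomial σ (Fn K))}
    (hd : dl (Fn K) W = k + 1) {p : MvPolynomial σ (Fn K)} (hp : p ∉ W.asIdeal)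
    {c : Polynomial K} (hc : c ≠ 0) {q : Polynomial (MvPolynomial σ K)}
    (hq : C (algebraMap (Polynomial K) (Fn K) c) * p = Th K σ q) :
    ∃ B : Set K, B.Finite ∧ ∀ l, l ∉ B →
      sp 𝕜 k l (divCyc (Fn K) 𝕜 k W p) =
        dcyc K 𝕜 k (fb K σ l) (divCyc K 𝕜 (k + 1) (ctr K (Th K σ) W) q) := by
  classical
  have hdK : dl K W = (k + 1) + 1 := by rw [dl_fn, hd]
  have hU := th_uset W
  have hdW : dl K (ctr K (Th K σ) W) = (k + 1) + 1 := by
    rw [dl_uset (th_frac (K := K) (σ := σ)) hU, hdK]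
  have hcS : cC σ c ∈ SC K σ := ⟨c, mem_nonZeroDivisors_of_ne_zero hc, rfl⟩
  have hq' : p * Th K σ (cC σ c) = Th K σ q := by rw [th_cC, mul_comm, hq]
  have hqW := SpB_not_mem hp hc hq
  have htr := transfer_div K 𝕜 (th_frac (K := K) (σ := σ)) hU hdK hp hcS hq'
  let F := (divCyc K 𝕜 (k + 1) (ctr K (Th K σ) W) q).support
  let cc : PrimeSpectrum (Polynomial (MvPolynomial σ K)) → Polynomial K := fun P =>
    if h : ∃ c' : Polynomial K, c' ≠ 0 ∧ cC σ c' ∈ P.asIdeal then h.choose else 1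
  refine ⟨⋃ P ∈ F, ((cc P).roots.toFinset : Set K),
    Set.Finite.biUnion F.finite_toSet (fun P _ => Finset.finite_toSet _), ?_⟩
  intro l hl
  have hkey : dcyc K 𝕜 k (fb K σ l) (push K 𝕜 (Th K σ) (SC K σ) (divCyc K 𝕜 (k + 1) W p) -
      divCyc K 𝕜 (k + 1) (ctr K (Th K σ) W) q) = 0 := by
    rw [← LinearMap.mem_ker]
    refine (Submodule.span_le.2 ?_) htr
    rintro _ ⟨P, ⟨hP1, hP2, hP3, v, hv, hvP⟩, rfl⟩
    rw [SetLike.mem_coe, LinearMap.mem_ker, dcyc_single, one_smul]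
    obtain ⟨c', hc', rfl⟩ := hv
    have hex : ∃ c' : Polynomial K, c' ≠ 0 ∧ cC σ c' ∈ P.asIdeal :=
      ⟨c', nonZeroDivisors.ne_zero hc', hvP⟩
    have hcP : cc P = hex.choose := dif_pos hex
    have hPF : P ∈ F := by
      rw [Finsupp.mem_support_iff, divCyc_ne_zero_iff K 𝕜 hdW hqW]
      exact ⟨hP1, hP2, hP3⟩
    have hno : ∀ Q : PrimeSpectrum (Polynomial (MvPolynomial σ K)), P ≤ Q →
        fb K σ l ∉ Q.asIdeal := by
      intro Q hPQ hfb
      apply hl
      simp only [Set.mem_iUnion]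
      refine ⟨P, hPF, ?_⟩
      rw [Finset.mem_coe, Multiset.mem_toFinset, hcP, Polynomial.mem_roots hex.choose_spec.1]
      exact fb_root hfb (hPQ hex.choose_spec.2)
    ext Q
    by_contra hQ
    exact hno Q (((divCyc_ne_zero_iff K 𝕜 hP1 (hno P le_rfl) Q).1 hQ).2.1)
      (((divCyc_ne_zero_iff K 𝕜 hP1 (hno P le_rfl) Q).1 hQ).2.2)
  unfold sp
  rw [LinearMap.comp_apply, divCyc_tower K (Fn K) 𝕜 k, td_Fn, add_comm 1 k]
  rwa [map_sub, sub_eq_zero] at hkey

/-- `sp_div_aux` and `comm_proper` with `a = fb l`, `G = q`: the primes `≥ ctr Th W` of dimension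
`k + 1` which contain `q` are finite in number (`divCyc_ne_zero_iff`) and each contains at most one
`fb l` (`fb_unique`). The second statement: for these `l` no component of the fibre contains `q`. -/
theorem sp_div {k : ℕ} {W : PrimeSpectrum (MvPolynomial σ (Fn K))}
    (hd : dl (Fn K) W = k + 1) {p : MvPolynomial σ (Fn K)} (hp : p ∉ W.asIdeal)
    {c : Polynomial K} (hc : c ≠ 0) {q : Polynomial (MvPolynomial σ K)}
    (hq : C (algebraMap (Polynomial K) (Fn K) c) * p = Th K σ q) :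
    ∃ B : Set K, B.Finite ∧ ∀ l, l ∉ B →
      (sp 𝕜 k l (divCyc (Fn K) 𝕜 k W p) =
        dcyc K 𝕜 k q (divCyc K 𝕜 (k + 1) (ctr K (Th K σ) W) (fb K σ l))) ∧
      (∀ T : PrimeSpectrum (Polynomial (MvPolynomial σ K)), ctr K (Th K σ) W ≤ T →
        fb K σ l ∈ T.asIdeal → dl K T = k + 1 → q ∉ T.asIdeal) := by
  classical
  have hdK : dl K W = (k + 1) + 1 := by rw [dl_fn, hd]
  have hdW : dl K (ctr K (Th K σ) W) = (k + 1) + 1 := by
    rw [dl_uset (th_frac (K := K) (σ := σ)) (th_uset W), hdK]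
  have hqW := SpB_not_mem hp hc hq
  obtain ⟨B, hB, hB2⟩ := sp_div_aux 𝕜 hd hp hc hq
  let F := (divCyc K 𝕜 (k + 1) (ctr K (Th K σ) W) q).support
  refine ⟨B ∪ ⋃ P ∈ F, {l | fb K σ l ∈ P.asIdeal}, hB.union
    (Set.Finite.biUnion F.finite_toSet (fun P _ => Set.Subsingleton.finite
      (fun l hl l' hl' => fb_unique hl hl'))), ?_⟩
  intro l hl
  rw [Set.mem_union, not_or] at hl
  have h2 : ∀ T : PrimeSpectrum (Polynomial (MvPolynomial σ K)), ctr K (Th K σ) W ≤ T →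
      fb K σ l ∈ T.asIdeal → dl K T = k + 1 → q ∉ T.asIdeal := by
    intro T hT1 hT2 hT3 hT4
    apply hl.2
    simp only [Set.mem_iUnion]
    refine ⟨T, ?_, hT2⟩
    rw [Finsupp.mem_support_iff, divCyc_ne_zero_iff K 𝕜 hdW hqW]
    exact ⟨hT3, hT1, hT4⟩
  refine ⟨?_, h2⟩
  rw [hB2 l hl.1]
  apply comm_proper K 𝕜 k _ _ _ (fb_not_mem l W) hqW hdW
  intro Q hQ1 hQ2 hQ3
  by_contra hcon
  have hle := dl_le K hQ1
  have hne : ctr K (Th K σ) W ≠ Q := by
    rintro rfl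
    exact hqW hQ3
  have hlt := dl_lt K (lt_of_le_of_ne hQ1 hne)
  exact h2 Q hQ1 hQ2 (by omega) hQ3

end Pool.Agent.Bloch.Pcl
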