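import Pool.Agent.Pcl.SpB
import Pool.Agent.Pcl.ExtB

/-! Specialisation of rational equivalences, descent to the base field. -/

set_option linter.unusedSectionVars false

open MvPolynomial

namespace Pool.Agent.Bloch.Pcl

open Pool.Agent.Bloch.Sep

attribute [local instance] MvPolynomial.algebraMvPolynomial

variable {K : Type} [Field K] {σ : Type} [Finite σ] (𝕜 : Type) [Field 𝕜] [CharZero 𝕜]

/-- One relation. Clear denominators of `f` and `g` by `th_clear_hom`; `sp_div` for both. The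
components `T` of the divisor of `fb l` on `ctr Th W` are `T = ctr (ev l) t` (`exists_ev`), `t` has
dimension `k + 1` (`dl_ctr_surj`), is homogeneous (`homP_fibre`) and in `Zs E`; on `T` the divisors
of `q_f`, `q_g` are `push0` of the divisors of `ev l q_f`, `ev l q_g` on `t` (`push0_divCyc`), forms
of the same degree (`ev_homog`); `mem_RH`. -/
theorem sp_rel {k : ℕ} {E : Set (MvPolynomial σ K)} {W : PrimeSpectrum (MvPolynomial σ (Fn K))}
    (hWE : W ∈ ZF E) (hW : HomP W) (hd : dl (Fn K) W = k + 1) {n : ℕ}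
    {f g : MvPolynomial σ (Fn K)} (hf : f.IsHomogeneous n) (hg : g.IsHomogeneous n)
    (hfW : f ∉ W.asIdeal) (hgW : g ∉ W.asIdeal) :
    ∃ B : Set K, B.Finite ∧ ∀ l, l ∉ B →
      sp 𝕜 k l (divCyc (Fn K) 𝕜 k W f - divCyc (Fn K) 𝕜 k W g) ∈
        (RH 𝕜 k (Zs E)).map (push0 K 𝕜 (ev K σ l)) := by
  obtain ⟨c, qf, hc, hqf, hqfh⟩ := th_clear_hom f hf
  obtain ⟨c', qg, hc', hqg, hqgh⟩ := th_clear_hom g hg
  obtain ⟨B1, hB1, h1⟩ := sp_div 𝕜 hd hfW hc hqf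
  obtain ⟨B2, hB2, h2⟩ := sp_div 𝕜 hd hgW hc' hqg
  refine ⟨B1 ∪ B2, hB1.union hB2, ?_⟩
  intro l hl
  rw [Set.mem_union, not_or] at hl
  obtain ⟨e1, t1⟩ := h1 l hl.1
  obtain ⟨e2, t2⟩ := h2 l hl.2
  rw [map_sub, e1, e2]
  have hdW : dl K (ctr K (Th K σ) W) = (k + 1) + 1 := by
    rw [dl_uset th_frac (th_uset W), dl_fn, hd]
  have hsupp : ∀ T, divCyc K 𝕜 (k + 1) (ctr K (Th K σ) W) (fb K σ l) T ≠ 0 →
      dl K T = k + 1 ∧ ctr K (Th K σ) W ≤ T ∧ fb K σ l ∈ T.asIdeal := fun T hT =>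
    (divCyc_ne_zero_iff K 𝕜 hdW (fb_not_mem l W) T).1 hT
  generalize divCyc K 𝕜 (k + 1) (ctr K (Th K σ) W) (fb K σ l) = D at hsupp
  unfold dcyc
  rw [Finsupp.linearCombination_apply, Finsupp.linearCombination_apply, Finsupp.sum, Finsupp.sum,
    ← Finset.sum_sub_distrib]
  apply Submodule.sum_mem
  intro T hT
  obtain ⟨hdT, hWT, hfT⟩ := hsupp T (Finsupp.mem_support_iff.1 hT)
  rw [← smul_sub]
  apply Submodule.smul_mem
  have hqfT := t1 T hWT hfT hdT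
  have hqgT := t2 T hWT hfT hdT
  obtain ⟨t, rfl⟩ := exists_ev l T hfT
  have hdt : dl K t = k + 1 := by
    rw [dl_ctr_surj K (ev K σ l) (ev_surj l)] at hdT
    exact hdT
  have ht : HomP t := homP_fibre hW hd l hWT hdt
  have htE : t ∈ Zs E := by
    intro h hh
    have h3 : Polynomial.C h ∈ (ctr K (Th K σ) W).asIdeal := by
      rw [mem_ctr, th_C]
      exact hWE _ ⟨h, hh, rfl⟩
    have h4 := hWT h3
    rw [mem_ctr, ev_C] at h4
    exact h4
  rw [← push0_divCyc K 𝕜 (ev K σ l) (ev_surj l) t hdt qf hqfT,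
    ← push0_divCyc K 𝕜 (ev K σ l) (ev_surj l) t hdt qg hqgT, ← map_sub]
  exact Submodule.mem_map_of_mem (mem_RH 𝕜 htE ht hdt (ev_homog l hqfh) (ev_homog l hqgh)
    hqfT hqgT)

/-- span induction with `sp_rel` (finite unions of finite sets) -/
theorem sp_RH {k : ℕ} {E : Set (MvPolynomial σ K)}
    {y : PrimeSpectrum (MvPolynomial σ (Fn K)) →₀ 𝕜} (hy : y ∈ RH 𝕜 k (ZF E)) :
    ∃ B : Set K, B.Finite ∧ ∀ l, l ∉ B →
      sp 𝕜 k l y ∈ (RH 𝕜 k (Zs E)).map (push0 K 𝕜 (ev K σ l)) := by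
  unfold RH at hy
  induction hy using Submodule.span_induction with
  | mem z hz =>
    obtain ⟨W, hWZ, hW, hd, n, f, g, hf, hg, hfW, hgW, rfl⟩ := hz
    exact sp_rel 𝕜 hWZ hW hd hf hg hfW hgW
  | zero =>
    refine ⟨∅, Set.finite_empty, fun l _ => ?_⟩
    rw [map_zero]
    exact Submodule.zero_mem _
  | add x y _ _ hx hy =>
    obtain ⟨B1, hB1, h1⟩ := hx
    obtain ⟨B2, hB2, h2⟩ := hy
    refine ⟨B1 ∪ B2, hB1.union hB2, ?_⟩
    intro l hl
    rw [Set.mem_union, not_or] at hl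
    rw [map_add]
    exact Submodule.add_mem _ (h1 l hl.1) (h2 l hl.2)
  | smul c x _ hx =>
    obtain ⟨B1, hB1, h1⟩ := hx
    refine ⟨B1, hB1, ?_⟩
    intro l hl
    rw [map_smul]
    exact Submodule.smul_mem _ _ (h1 l hl)

/-- Descent: `sp_RH`, `sp_ex`, `push0_ev_inj`, and an `l` outside of the finite set. -/
theorem spec [Infinite K] {k : ℕ} {E : Set (MvPolynomial σ K)}
    {y : PrimeSpectrum (MvPolynomial σ K) →₀ 𝕜} (hy : ∀ T, y T ≠ 0 → dl K T = k)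
    (h : ex 𝕜 y ∈ RH 𝕜 k (ZF E)) : y ∈ RH 𝕜 k (Zs E) := by
  obtain ⟨B, hB, h1⟩ := sp_RH 𝕜 h
  obtain ⟨l, hl⟩ := hB.exists_notMem
  have h2 := h1 l hl
  rw [sp_ex 𝕜 l hy] at h2
  obtain ⟨x, hx, hxy⟩ := h2
  rw [← push0_ev_inj 𝕜 l hxy]
  exact hx

end Pool.Agent.Bloch.Pcl
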