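import Pool.Agent.Pcl.ExtB

/-! The member `F + μ G` of the pencil: substitution `μ = - F / G`. -/

set_option linter.unusedSectionVars false

open MvPolynomial

namespace Pool.Agent.Bloch.Pcl

open Pool.Agent.Bloch.Sep

attribute [local instance] MvPolynomial.algebraMvPolynomial

variable {K : Type} [Field K] {σ : Type} [Finite σ] (𝕜 : Type) [Field 𝕜] [CharZero 𝕜]

/-- the general member of the pencil -/
noncomputable def gm (F G : MvPolynomial σ K) : MvPolynomial σ (Fn K) :=
  bc F + C (mu K) * bc G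

theorem gm_homog {d : ℕ} {F G : MvPolynomial σ K} (hF : F.IsHomogeneous d)
    (hG : G.IsHomogeneous d) : (gm F G).IsHomogeneous d := by
  unfold gm
  refine (bc_homog hF).add ?_
  have h := (isHomogeneous_C σ (mu K)).mul (bc_homog hG)
  rwa [zero_add] at h

private theorem Sub_gm (F G : MvPolynomial σ K) :
    gm F G = Th K σ (Polynomial.C F + Polynomial.X * Polynomial.C G) := by
  rw [map_add, map_mul, th_C, th_C, th_X]
  rfl

/-- `gm F G ∈ eT T` iff `F, G ∈ T` (`th_inj`-like comparison: `gm F G = Th (C F + X C G)`, and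
`ctr_eT`) -/
theorem gm_mem_eT (F G : MvPolynomial σ K) (T : PrimeSpectrum (MvPolynomial σ K)) :
    gm F G ∈ (eT T).asIdeal ↔ F ∈ T.asIdeal ∧ G ∈ T.asIdeal := by
  rw [Sub_gm, ← mem_ctr, ctr_eT, mem_ext]
  constructor
  · intro h
    have h0 := h 0
    have h1 := h 1
    simp only [Polynomial.coeff_add, Polynomial.coeff_C_zero, Polynomial.coeff_X_mul_zero,
      add_zero] at h0
    rw [Polynomial.coeff_add, Polynomial.coeff_C, if_neg one_ne_zero, zero_add,
      Polynomial.coeff_X_mul, Polynomial.coeff_C_zero] at h1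
    exact ⟨h0, h1⟩
  · rintro ⟨h0, h1⟩ n
    rw [Polynomial.coeff_add, Polynomial.coeff_C]
    refine T.asIdeal.add_mem ?_ ?_
    · split_ifs
      · exact h0
      · exact T.asIdeal.zero_mem
    · rcases n with _ | n
      · rw [Polynomial.coeff_X_mul_zero]
        exact T.asIdeal.zero_mem
      · rw [Polynomial.coeff_X_mul, Polynomial.coeff_C]
        split_ifs
        · exact h1
        · exact T.asIdeal.zero_mem

theorem gm_mem_G {F G : MvPolynomial σ K} {Q : PrimeSpectrum (MvPolynomial σ (Fn K))}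
    (h : gm F G ∈ Q.asIdeal) (hG : bc G ∈ Q.asIdeal) : bc F ∈ Q.asIdeal := by
  have h1 : bc F = gm F G - C (mu K) * bc G := by
    unfold gm
    ring
  rw [h1]
  exact Q.asIdeal.sub_mem h (Q.asIdeal.mul_mem_left _ hG)

/-- the substitution in a polynomial in `μ` -/
private noncomputable def SubP (F G : MvPolynomial σ K) (q : Polynomial (MvPolynomial σ K))
    (N : ℕ) : MvPolynomial σ K :=
  ∑ j ∈ q.support, (-F) ^ j * G ^ (N - j) * q.coeff j

private theorem SubP_mem (F G : MvPolynomial σ K) (q : Polynomial (MvPolynomial σ K))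
    {N : ℕ} (hN : q.natDegree ≤ N) {a p : MvPolynomial σ (Fn K)} (h : a * p = Th K σ q) :
    bc (SubP F G q N) - a * (bc G) ^ N * p ∈ Ideal.span {gm F G} := by
  have h1 : a * (bc G) ^ N * p = (bc G) ^ N * (a * p) := by ring
  have h2 : bc (SubP F G q N) = ∑ j ∈ q.support, (-bc F) ^ j * (bc G) ^ (N - j) * bc (q.coeff j) := by
    unfold SubP
    simp only [bc, map_sum, map_mul, map_pow, map_neg]
  rw [h1, h, th_eq_sum, h2, Finset.mul_sum, ← Finset.sum_sub_distrib]
  refine Ideal.sum_mem _ fun j hj => ?_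
  have hjN : j ≤ N := (Polynomial.le_natDegree_of_mem_supp j hj).trans hN
  have h3 : (bc G) ^ N = (bc G) ^ (N - j) * (bc G) ^ j := by
    rw [← pow_add, Nat.sub_add_cancel hjN]
  have h4 : (-bc F) ^ j * (bc G) ^ (N - j) * bc (q.coeff j) -
      (bc G) ^ N * (C (mu K ^ j) * bc (q.coeff j)) =
      (bc G) ^ (N - j) * bc (q.coeff j) * ((-bc F) ^ j - (C (mu K) * bc G) ^ j) := by
    rw [h3, mul_pow, map_pow]
    ring
  rw [h4]
  refine Ideal.mul_mem_left _ _ ?_
  obtain ⟨t, ht⟩ := sub_dvd_pow_sub_pow (-bc F) (C (mu K) * bc G) j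
  rw [ht, Ideal.mem_span_singleton]
  refine ⟨-t, ?_⟩
  unfold gm
  ring

/-- Substitution in a form. Clear denominators (`th_clear_hom`): `C c * p = Th q`. For
`N ≥ natDegree q` put `P = ∑ j, (-F) ^ j * G ^ (N - j) * q_j`; modulo `gm F G` one has
`μ G = - F`, so `μ ^ j G ^ N = (- F) ^ j G ^ (N - j)`. -/
theorem sub_hom {d n : ℕ} {F G : MvPolynomial σ K} (hF : F.IsHomogeneous d)
    (hG : G.IsHomogeneous d) {p : MvPolynomial σ (Fn K)} (hp : p.IsHomogeneous n) :
    ∃ N₀ : ℕ, ∀ N, N₀ ≤ N → ∃ (c : Fn K) (P : MvPolynomial σ K), c ≠ 0 ∧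
      P.IsHomogeneous (n + N * d) ∧
      bc P - C c * (bc G) ^ N * p ∈ Ideal.span {gm F G} := by
  obtain ⟨c, q, hc, hq, hqh⟩ := th_clear_hom p hp
  refine ⟨q.natDegree, fun N hN => ⟨algebraMap (Polynomial K) (Fn K) c, SubP F G q N, ?_, ?_,
    SubP_mem F G q hN hq⟩⟩
  · rw [Ne, FaithfulSMul.algebraMap_eq_zero_iff]
    exact hc
  · unfold SubP
    refine IsHomogeneous.sum _ _ _ fun j hj => ?_
    have hjN : j ≤ N := (Polynomial.le_natDegree_of_mem_supp j hj).trans hN
    have h1 := ((hF.neg.pow j).mul (hG.pow (N - j))).mul (hqh j)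
    have h2 : d * j + d * (N - j) + n = n + N * d := by
      rw [← mul_add, Nat.add_sub_cancel' hjN]
      ring
    rwa [h2] at h1

/-- the same without degrees, for any polynomial (`th_clear`) -/
theorem sub_any (F G : MvPolynomial σ K) (p : MvPolynomial σ (Fn K)) :
    ∃ (N : ℕ) (c : Fn K) (P : MvPolynomial σ K), c ≠ 0 ∧
      bc P - C c * (bc G) ^ N * p ∈ Ideal.span {gm F G} := by
  obtain ⟨c, q, hc, hq⟩ := th_clear p
  refine ⟨q.natDegree, algebraMap (Polynomial K) (Fn K) c, SubP F G q q.natDegree, ?_,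
    SubP_mem F G q le_rfl hq⟩
  rw [Ne, FaithfulSMul.algebraMap_eq_zero_iff]
  exact hc

/-- also the constants of `K(μ)` become quotients of polynomials over `K` -/
theorem sub_const (F G : MvPolynomial σ K) (c : Fn K) (hc : c ≠ 0) :
    ∃ (N M : ℕ) (A B : MvPolynomial σ K) (u v : Fn K), u ≠ 0 ∧ v ≠ 0 ∧ c * u = v ∧
      bc A - C u * (bc G) ^ N ∈ Ideal.span {gm F G} ∧
      bc B - C v * (bc G) ^ M ∈ Ideal.span {gm F G} := by
  obtain ⟨x, y, hy, hxy⟩ := IsFractionRing.div_surjective (A := Polynomial K) c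
  have hy0 : algebraMap (Polynomial K) (Fn K) y ≠ 0 := by
    rw [Ne, FaithfulSMul.algebraMap_eq_zero_iff]
    exact nonZeroDivisors.ne_zero hy
  have hcx : c * algebraMap (Polynomial K) (Fn K) y = algebraMap (Polynomial K) (Fn K) x := by
    rw [← hxy, div_mul_cancel₀ _ hy0]
  have key : ∀ w : Polynomial K, ∃ (N : ℕ) (A : MvPolynomial σ K),
      bc A - C (algebraMap (Polynomial K) (Fn K) w) * (bc G) ^ N ∈ Ideal.span {gm F G} := by
    intro w
    have h1 := SubP_mem F G (cC σ w) le_rfl (a := C (algebraMap (Polynomial K) (Fn K) w)) (p := 1)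
      (by rw [mul_one, th_cC])
    rw [mul_one] at h1
    exact ⟨_, _, h1⟩
  obtain ⟨N, A, hA⟩ := key y
  obtain ⟨M, B, hB⟩ := key x
  refine ⟨N, M, A, B, _, _, hy0, ?_, hcx, hA, hB⟩
  rw [← hcx]
  exact mul_ne_zero hc hy0

end Pool.Agent.Bloch.Pcl
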